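import Pool.Agent.H82.TC.MH

set_option autoImplicit false

namespace Pool.Agent.H82.TC

open Filter

/-! ### Structured programs -/

/-- Structured programs over registers. -/
inductive Cmd
  | skip
  | inc (i : ℕ)
  | dec (i : ℕ)
  | seq (c d : Cmd)
  | ite (i : ℕ) (g : Test) (c d : Cmd)
  | whl (i : ℕ) (g : Test) (c : Cmd)

/-- The number of instructions. -/
def Cmd.len : Cmd → ℕ
  | skip => 0
  | inc _ => 1
  | dec _ => 1
  | seq c d => c.len + d.len
  | ite _ _ c d => c.len + d.len + 2
  | whl _ _ c => c.len + 2

/-- The instructions of a structured program, placed at the address `a`. -/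
def Cmd.comp : Cmd → ℕ → List Ins
  | skip, _ => []
  | inc i, _ => [.inc i]
  | dec i, _ => [.dec i]
  | seq c d, a => c.comp a ++ d.comp (a + c.len)
  | ite i g c d, a => .br i g (a + d.len + 2) :: (d.comp (a + 1) ++
      .br 0 (fun _ _ => true) (a + d.len + 2 + c.len) :: c.comp (a + d.len + 2))
  | whl i g c, a => .br i (fun z s => !g z s) (a + c.len + 2) ::
      (c.comp (a + 1) ++ [.br 0 (fun _ _ => true) a])

theorem Cmd.length_comp (c : Cmd) : ∀ a, (c.comp a).length = c.len := by
  induction c with
  | skip => intro a; rfl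
  | inc i => intro a; rfl
  | dec i => intro a; rfl
  | seq c d hc hd => intro a; simp [comp, len, hc, hd]
  | ite i g c d hc hd => intro a; simp [comp, len, hc, hd]; omega
  | whl i g c hc => intro a; simp [comp, len, hc]

/-- Big step semantics: from the registers `R` the program leads to `R'` in `t` steps. -/
inductive Ev (w : List Sym) : Cmd → (ℕ → ℕ) → (ℕ → ℕ) → ℕ → Prop
  | skip (R) : Ev w .skip R R 0
  | inc (i R) : Ev w (.inc i) R (Function.update R i (R i + 1)) 1
  | dec (i R) : Ev w (.dec i) R (Function.update R i (R i - 1)) 1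
  | seq (c d R R' R'' t t') (h : Ev w c R R' t) (h' : Ev w d R' R'' t') :
      Ev w (.seq c d) R R'' (t + t')
  | ite_true (i g c d R R' t) (hg : g (decide (R i = 0)) w[R i]? = true) (h : Ev w c R R' t) :
      Ev w (.ite i g c d) R R' (t + 1)
  | ite_false (i g c d R R' t) (hg : g (decide (R i = 0)) w[R i]? = false) (h : Ev w d R R' t) :
      Ev w (.ite i g c d) R R' (t + 2)
  | whl_false (i g c R) (hg : g (decide (R i = 0)) w[R i]? = false) : Ev w (.whl i g c) R R 1
  | whl_true (i g c R R' R'' t t') (hg : g (decide (R i = 0)) w[R i]? = true)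
      (h : Ev w c R R' t) (h' : Ev w (.whl i g c) R' R'' t') : Ev w (.whl i g c) R R'' (t + t' + 2)

/-- The list `L` is placed in the program `P` at the address `a`. -/
def At (P : List Ins) (a : ℕ) (L : List Ins) : Prop := ∃ pre post, P = pre ++ (L ++ post) ∧
  pre.length = a

theorem At.left {P : List Ins} {a : ℕ} {L L' : List Ins} (h : At P a (L ++ L')) : At P a L := by
  obtain ⟨pre, post, h1, h2⟩ := h
  exact ⟨pre, L' ++ post, by rw [h1]; simp, h2⟩

theorem At.right {P : List Ins} {a : ℕ} {L L' : List Ins} (h : At P a (L ++ L')) :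
    At P (a + L.length) L' := by
  obtain ⟨pre, post, h1, h2⟩ := h
  exact ⟨pre ++ L, post, by rw [h1]; simp, by simp [h2]⟩

theorem At.head {P : List Ins} {a : ℕ} {I : Ins} {L : List Ins} (h : At P a (I :: L)) :
    P[a]? = some I := by
  obtain ⟨pre, post, h1, h2⟩ := h
  rw [h1, List.getElem?_append_right (by omega)]
  simp [h2]

theorem At.tail {P : List Ins} {a : ℕ} {I : Ins} {L : List Ins} (h : At P a (I :: L)) :
    At P (a + 1) L := by
  obtain ⟨pre, post, h1, h2⟩ := h
  exact ⟨pre ++ [I], post, by rw [h1]; simp, by simp [h2]⟩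

theorem path_br {P : List Ins} {w : List Sym} {a i l : ℕ} {g : Test} {R : ℕ → ℕ}
    (h : P[a]? = some (.br i g l)) :
    Path (manswer P) (mstep P w) ⟨a, R⟩
      ⟨if g (decide (R i = 0)) w[R i]? = true then l else a + 1, R⟩ 1 := by
  have h1 : mstep P w ⟨a, R⟩ = ⟨if g (decide (R i = 0)) w[R i]? = true then l else a + 1, R⟩ := by
    unfold mstep
    simp only [h]
  rw [← h1]
  refine Path.one ?_
  unfold manswer
  simp only [h]

/-- The instructions of a structured program do what it says. -/
theorem Ev.path {w : List Sym} {c : Cmd} {R R' : ℕ → ℕ} {t : ℕ} (h : Ev w c R R' t)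
    {P : List Ins} : ∀ {a : ℕ}, At P a (c.comp a) →
      Path (manswer P) (mstep P w) ⟨a, R⟩ ⟨a + c.len, R'⟩ t := by
  induction h with
  | skip R => intro a _; exact Path.refl _
  | inc i R =>
    intro a h
    have h1 := h.head
    have h2 : mstep P w ⟨a, R⟩ = ⟨a + 1, Function.update R i (R i + 1)⟩ := by
      unfold mstep
      simp only [h1]
    show Path (manswer P) (mstep P w) ⟨a, R⟩ ⟨a + 1, Function.update R i (R i + 1)⟩ 1
    rw [← h2]
    refine Path.one ?_
    unfold manswer
    simp only [h1]
  | dec i R =>
    intro a h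
    have h1 := h.head
    have h2 : mstep P w ⟨a, R⟩ = ⟨a + 1, Function.update R i (R i - 1)⟩ := by
      unfold mstep
      simp only [h1]
    show Path (manswer P) (mstep P w) ⟨a, R⟩ ⟨a + 1, Function.update R i (R i - 1)⟩ 1
    rw [← h2]
    refine Path.one ?_
    unfold manswer
    simp only [h1]
  | seq c d R R' R'' t t' _ _ ih ih' =>
    intro a h
    have h1 := ih h.left
    have h2 := h.right
    rw [Cmd.length_comp] at h2
    have h3 := h1.trans (ih' h2)
    rwa [add_assoc] at h3
  | ite_true i g c d R R' t hg _ ih =>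
    intro a h
    have h1 := path_br (w := w) (R := R) h.head
    rw [if_pos hg] at h1
    have h2 := h.tail.right.tail
    rw [Cmd.length_comp, show a + 1 + d.len + 1 = a + d.len + 2 by omega] at h2
    have h3 := h1.trans (ih h2)
    rw [show 1 + t = t + 1 by omega] at h3
    rwa [show a + d.len + 2 + c.len = a + (c.len + d.len + 2) by omega] at h3
  | ite_false i g c d R R' t hg _ ih =>
    intro a h
    have h1 := path_br (w := w) (R := R) h.head
    rw [if_neg (by rw [hg]; simp)] at h1
    have h2 := ih h.tail.left
    have h3 := h.tail.right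
    rw [Cmd.length_comp] at h3
    have h4 := path_br (w := w) (R := R') h3.head
    rw [if_pos rfl] at h4
    have h5 := (h1.trans h2).trans h4
    rw [show 1 + t + 1 = t + 2 by omega] at h5
    rwa [show a + d.len + 2 + c.len = a + (c.len + d.len + 2) by omega] at h5
  | whl_false i g c R hg =>
    intro a h
    have h1 := path_br (w := w) (R := R) h.head
    rw [if_pos (by simp [hg])] at h1
    exact h1
  | whl_true i g c R R' R'' t t' hg _ _ ih ih' =>
    intro a h
    have h1 := path_br (w := w) (R := R) h.head
    rw [if_neg (by simp [hg])] at h1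
    have h2 := ih h.tail.left
    have h3 := h.tail.right
    rw [Cmd.length_comp] at h3
    have h4 := path_br (w := w) (R := R') h3.head
    rw [if_pos rfl] at h4
    have h5 := ((h1.trans h2).trans h4).trans (ih' h)
    rwa [show 1 + t + 1 + t' = t + t' + 2 by omega] at h5

/-- The program which runs `c` and accepts if the register `i` is `0` at the end. -/
def Cmd.prog (c : Cmd) (i : ℕ) : List Ins :=
  c.comp 0 ++ [.br i (fun z _ => z) (c.len + 2), .halt false, .halt true]

/-- A register bound for a program. -/
def regs (P : List Ins) : ℕ := (P.map Ins.reg).sum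

theorem reg_le_regs {P : List Ins} : ∀ I ∈ P, I.reg ≤ regs P := by
  intro I hI
  exact List.single_le_sum (by simp) _ (List.mem_map_of_mem hI)

/-- The Turing machine of a structured program. -/
def Cmd.tm (c : Cmd) (i : ℕ) : TM := toTM (c.prog i) (regs (c.prog i))

theorem Ev.halts {w : List Sym} {c : Cmd} {i t : ℕ} {R : ℕ → ℕ} (h : Ev w c (fun _ => 0) R t) :
    turing.Halts (c.tm i) w (decide (R i = 0)) (2 * max w.length 1 + 2 + t) := by
  have hat : At (c.prog i) 0 (c.comp 0) := ⟨[], _, rfl, rfl⟩
  have hlen : (c.comp 0).length = c.len := c.length_comp 0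
  have g0 : (c.prog i)[c.len]? = some (.br i (fun z _ => z) (c.len + 2)) := by
    unfold Cmd.prog
    rw [List.getElem?_append_right (by omega), hlen, Nat.sub_self]
    rfl
  have g1 : (c.prog i)[c.len + 1]? = some (.halt false) := by
    unfold Cmd.prog
    rw [List.getElem?_append_right (by omega), hlen, Nat.add_sub_cancel_left]
    rfl
  have g2 : (c.prog i)[c.len + 2]? = some (.halt true) := by
    unfold Cmd.prog
    rw [List.getElem?_append_right (by omega), hlen, Nat.add_sub_cancel_left]
    rfl
  have h1 := h.path hat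
  rw [Nat.zero_add] at h1
  have h2 := h1.trans (path_br g0)
  have h3 := toTM_halts (c.prog i) (regs (c.prog i)) w reg_le_regs (b := decide (R i = 0)) h2 (by
    unfold manswer
    by_cases h0 : R i = 0
    · simp only [h0, decide_true, if_true, g2]
    · simp only [h0, decide_false]
      simp [g1])
  rwa [show 2 * max w.length 1 + 1 + (t + 1) = 2 * max w.length 1 + 2 + t by omega] at h3

end Pool.Agent.H82.TC
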