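import Pool.Agent.H82.TC.Lower

set_option autoImplicit false

namespace Pool.Agent.H82.TC

open Filter

/-! ### The input words determine the structures -/

theorem split_sep {l : List Sym} : ∀ {l' u u' : List Sym}, Sym.sep ∉ l → Sym.sep ∉ l' →
    l ++ Sym.sep :: u = l' ++ Sym.sep :: u' → l = l' ∧ u = u' := by
  induction l with
  | nil =>
    intro l' u u' _ h' e
    cases l' with
    | nil => exact ⟨rfl, by simpa using e⟩
    | cons a l' =>
      simp only [List.nil_append, List.cons_append, List.cons.injEq] at e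
      exact absurd (by rw [← e.1]; exact List.mem_cons_self) h'
  | cons a l ih =>
    intro l' u u' h h' e
    cases l' with
    | nil =>
      simp only [List.nil_append, List.cons_append, List.cons.injEq] at e
      exact absurd (by rw [e.1]; exact List.mem_cons_self) h
    | cons a' l' =>
      simp only [List.cons_append, List.cons.injEq] at e
      obtain ⟨h1, h2⟩ := ih (fun hm => h (List.mem_cons_of_mem _ hm))
        (fun hm => h' (List.mem_cons_of_mem _ hm)) e.2
      exact ⟨by rw [e.1, h1], h2⟩

theorem bits_injective : Function.Injective Nat.bits := by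
  intro a b h
  have h1 := Nat.digits_two_eq_bits a
  have h2 := Nat.digits_two_eq_bits b
  rw [h, ← h2] at h1
  exact Nat.digits_inj_iff.1 h1

theorem natCode_inj {a b : ℕ} {u v : List Sym} (h : natCode a ++ u = natCode b ++ v) :
    a = b ∧ u = v := by
  unfold natCode at h
  rw [List.append_assoc, List.append_assoc, List.singleton_append, List.singleton_append] at h
  have hs : ∀ l : List Bool, Sym.sep ∉ l.map (fun b => if b then Sym.one else Sym.zero) := by
    intro l hl
    obtain ⟨b, _, hb⟩ := List.mem_map.1 hl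
    cases b <;> simp at hb
  obtain ⟨h1, h2⟩ := split_sep (hs _) (hs _) h
  refine ⟨bits_injective (List.map_injective_iff.2 ?_ h1), h2⟩
  intro x y hxy
  cases x <;> cases y <;> simp_all

theorem flatten_inj {m : ℕ} (f g : Fin m → List Sym) (P : Fin m → Prop)
    (hP : ∀ i u v, f i ++ u = g i ++ v → P i ∧ u = v) (u v : List Sym)
    (h : (List.ofFn f).flatten ++ u = (List.ofFn g).flatten ++ v) : (∀ i, P i) ∧ u = v := by
  induction m with
  | zero => exact ⟨fun i => Fin.elim0 i, by simpa using h⟩
  | succ m ih =>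
    rw [List.ofFn_succ, List.ofFn_succ, List.flatten_cons, List.flatten_cons, List.append_assoc,
      List.append_assoc] at h
    obtain ⟨h1, h2⟩ := hP 0 _ _ h
    obtain ⟨h3, h4⟩ := ih (fun i => f i.succ) (fun i => g i.succ) (fun i => P i.succ)
      (fun i => hP i.succ) h2
    exact ⟨Fin.cases h1 h3, h4⟩

theorem relTable_inj {s : Sig} {n : ℕ} (A B : Str s n) (i : Fin s.rel.length) (u v : List Sym)
    (h : relTable A i ++ u = relTable B i ++ v) :
    (∀ x, A.RelMap (⟨i, rfl⟩ : s.lang.Relations (s.rel.get i)) x ↔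
      B.RelMap (⟨i, rfl⟩ : s.lang.Relations (s.rel.get i)) x) ∧ u = v := by
  classical
  unfold relTable at h
  obtain ⟨h1, h2⟩ := List.append_inj h (by simp)
  refine ⟨fun x => ?_, h2⟩
  have h3 := List.append_cancel_right h1
  have h4 := congrFun (List.ofFn_injective h3) (finFunctionFinEquiv x)
  simp only [Equiv.symm_apply_apply] at h4
  by_cases ha : A.RelMap (⟨i, rfl⟩ : s.lang.Relations (s.rel.get i)) x <;>
    by_cases hb : B.RelMap (⟨i, rfl⟩ : s.lang.Relations (s.rel.get i)) x <;> simp_all

theorem fnTable_inj {s : Sig} {n : ℕ} (A B : Str s n) (i : Fin s.fn.length) (u v : List Sym)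
    (h : fnTable A i ++ u = fnTable B i ++ v) :
    (∀ x, A.funMap (⟨i, rfl⟩ : s.lang.Functions (s.fn.get i)) x =
      B.funMap (⟨i, rfl⟩ : s.lang.Functions (s.fn.get i)) x) ∧ u = v := by
  unfold fnTable at h
  rw [List.append_assoc, List.append_assoc] at h
  obtain ⟨h1, h2⟩ := flatten_inj _ _ (fun k =>
    (A.funMap (⟨i, rfl⟩ : s.lang.Functions (s.fn.get i)) (finFunctionFinEquiv.symm k)).val + 1 =
    (B.funMap (⟨i, rfl⟩ : s.lang.Functions (s.fn.get i)) (finFunctionFinEquiv.symm k)).val + 1)
    (fun k u v => natCode_inj) _ _ h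
  refine ⟨fun x => Fin.ext ?_, by simpa using h2⟩
  have h3 := h1 (finFunctionFinEquiv x)
  simp only [Equiv.symm_apply_apply] at h3
  omega

theorem size_inj {s : Sig} {n n' : ℕ} {A : Str s n} {B : Str s n'} {u v : List Sym}
    (h : code A ++ u = code B ++ v) : n = n' := by
  unfold code at h
  simp only [List.append_assoc, List.singleton_append] at h
  have hs : ∀ m : ℕ, Sym.sep ∉ List.replicate m Sym.one := by
    intro m hm
    exact absurd (List.eq_of_mem_replicate hm) (by simp)
  have h1 := (split_sep (hs n) (hs n') h).1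
  simpa using congrArg List.length h1

theorem code_inj {s : Sig} {n : ℕ} {A B : Str s n} {u v : List Sym}
    (h : code A ++ u = code B ++ v) : A = B ∧ u = v := by
  unfold code at h
  simp only [List.append_assoc] at h
  have h0 := List.append_cancel_left (List.append_cancel_left h)
  obtain ⟨h1, h2⟩ := flatten_inj _ _ _ (relTable_inj A B) _ _ h0
  obtain ⟨h3, h4⟩ := flatten_inj _ _ _ (fnTable_inj A B) _ _ h2
  refine ⟨?_, h4⟩
  ext k f x
  · obtain ⟨i, rfl⟩ := f
    exact congrArg Fin.val (h3 i x)
  · obtain ⟨i, rfl⟩ := f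
    exact h1 i x

theorem pairCode_inj {s : Sig} {n n' : ℕ} {A B : Str s n} {A' B' : Str s n'}
    (h : pairCode A B = pairCode A' B') : Iso A B ↔ Iso A' B' := by
  unfold pairCode at h
  obtain rfl := size_inj h
  obtain ⟨rfl, h2⟩ := code_inj h
  obtain ⟨rfl, _⟩ := code_inj (u := []) (v := []) (by simpa using h2)
  rfl

end Pool.Agent.H82.TC
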