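import Mathlib

set_option autoImplicit false

namespace Pool.Agent.H82.TC

open Filter

/-! ### Classes of structures of finite type -/

/-- A finite signature: the lists of arities of its relation symbols and of its function symbols.
A function symbol of arity `0` is a constant symbol. -/
structure Sig where
  rel : List ℕ
  fn : List ℕ

/-- The first-order language of a finite signature. -/
def Sig.lang (s : Sig) : FirstOrder.Language.{0, 0} where
  Functions k := {i : Fin s.fn.length // s.fn.get i = k}
  Relations k := {i : Fin s.rel.length // s.rel.get i = k}

/-- Structures of the signature `s` whose universe is the `n`-element set `{1, ..., n}`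
(written as `Fin n`, the element `i : Fin n` standing for `i + 1`). -/
abbrev Str (s : Sig) (n : ℕ) : Type := s.lang.Structure (Fin n)

/-- A first-order definable class of structures of finite type, given by a finite signature and one
first-order sentence; its members are the finite models of the sentence. -/
structure FOClass where
  sig : Sig
  ax : sig.lang.Sentence

/-- `A` is an `n`-element member of the class `L`. -/
def FOClass.Mem (L : FOClass) {n : ℕ} (A : Str L.sig n) : Prop :=
  @FirstOrder.Language.Sentence.Realize L.sig.lang (Fin n) A L.ax

/-- Isomorphism of structures. -/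
def Iso {s : Sig} {n : ℕ} (A B : Str s n) : Prop :=
  Nonempty (@FirstOrder.Language.Equiv s.lang (Fin n) (Fin n) A B)

theorem Iso.refl {s : Sig} {n : ℕ} (A : Str s n) : Iso A A :=
  ⟨@FirstOrder.Language.Equiv.refl s.lang (Fin n) A⟩

theorem Iso.symm {s : Sig} {n : ℕ} {A B : Str s n} (h : Iso A B) : Iso B A :=
  h.elim fun e => ⟨@FirstOrder.Language.Equiv.symm s.lang (Fin n) (Fin n) A B e⟩

theorem Iso.trans {s : Sig} {n : ℕ} {A B C : Str s n} (h : Iso A B) (h' : Iso B C) : Iso A C :=
  h.elim fun e => h'.elim fun e' =>
    ⟨@FirstOrder.Language.Equiv.comp s.lang (Fin n) (Fin n) A B (Fin n) C e' e⟩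

/-- Isomorphism as an equivalence relation on the `n`-element members of `L`. -/
def FOClass.isoSetoid (L : FOClass) (n : ℕ) : Setoid {A : Str L.sig n // L.Mem A} where
  r A B := Iso A.1 B.1
  iseqv := ⟨fun A => Iso.refl A.1, fun h => h.symm, fun h h' => h.trans h'⟩

/-- `f_L(n)`: the number of isomorphism types of `n`-element members of `L`. -/
noncomputable def FOClass.types (L : FOClass) (n : ℕ) : ℕ :=
  Nat.card (Quotient (L.isoSetoid n))

/-! ### Inputs: every symbol given by its full table -/

/-- The input alphabet. -/
inductive Sym
  | zero
  | one
  | sep

/-- The binary code of a natural number, followed by a separator. -/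
def natCode (v : ℕ) : List Sym :=
  (Nat.bits v).map (fun b => if b then Sym.one else Sym.zero) ++ [Sym.sep]

open Classical in
/-- The full table of the `i`-th relation symbol, one cell for each tuple, and a separator. -/
noncomputable def relTable {s : Sig} {n : ℕ} (A : Str s n) (i : Fin s.rel.length) : List Sym :=
  List.ofFn (fun k : Fin (n ^ s.rel.get i) =>
    if A.RelMap (⟨i, rfl⟩ : s.lang.Relations (s.rel.get i)) (finFunctionFinEquiv.symm k)
    then Sym.one else Sym.zero) ++ [Sym.sep]

/-- The full table of the `i`-th function symbol, the values `1, ..., n` being written in binary. -/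
noncomputable def fnTable {s : Sig} {n : ℕ} (A : Str s n) (i : Fin s.fn.length) : List Sym :=
  (List.ofFn (fun k : Fin (n ^ s.fn.get i) =>
    natCode ((A.funMap (⟨i, rfl⟩ : s.lang.Functions (s.fn.get i))
      (finFunctionFinEquiv.symm k)).val + 1))).flatten ++ [Sym.sep]

/-- The code of a structure: its size in unary, then the full tables of all its symbols. -/
noncomputable def code {s : Sig} {n : ℕ} (A : Str s n) : List Sym :=
  List.replicate n Sym.one ++ [Sym.sep] ++
    ((List.ofFn (relTable A)).flatten ++ (List.ofFn (fnTable A)).flatten)

/-- The input of an isomorphism testing algorithm: the codes of two structures. -/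
noncomputable def pairCode {s : Sig} {n : ℕ} (A B : Str s n) : List Sym := code A ++ code B

/-! ### Models of computation, isomorphism testing algorithms, and the assertion of Q1 -/

/-- A model of deterministic computation: a type of algorithms, and the relation
`Halts γ w b t`: on the input word `w` the algorithm `γ` halts with answer `b` after exactly
`t` steps. -/
structure Model where
  Alg : Type 1
  Halts : Alg → List Sym → Bool → ℕ → Prop
  det : ∀ γ w b t b' t', Halts γ w b t → Halts γ w b' t' → b = b' ∧ t = t'

/-- `γ` is an isomorphism testing algorithm for `L`: it halts on every pair of `n`-element members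
of `L` and says whether they are isomorphic. -/
def IsTest (M : Model) (L : FOClass) (γ : M.Alg) : Prop :=
  ∀ (n : ℕ) (A B : Str L.sig n), L.Mem A → L.Mem B →
    ∃ b t, M.Halts γ (pairCode A B) b t ∧ (b = true ↔ Iso A B)

/-- `m_L(γ, n)`: the largest number of steps `γ` uses on any pair of `n`-element members of `L`. -/
noncomputable def maxSteps (M : Model) (L : FOClass) (γ : M.Alg) (n : ℕ) : ℕ :=
  sSup {t | ∃ A B : Str L.sig n, L.Mem A ∧ L.Mem B ∧ ∃ b, M.Halts γ (pairCode A B) b t}

/-- The conclusion of the assertion of Q1 for the classes `J` and `K`: one can find a polynomial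
`p` such that for each isomorphism testing algorithm `α` for `K` some isomorphism testing algorithm
`β` for `J` satisfies `m_J(β, n) ≤ p(m_K(α, n))` for all sufficiently large `n`. -/
def Conclusion (M : Model) (J K : FOClass) : Prop :=
  ∃ p : Polynomial ℝ, ∀ α : M.Alg, IsTest M K α →
    ∃ β : M.Alg, IsTest M J β ∧
      ∀ᶠ n in atTop, (maxSteps M J β n : ℝ) ≤ p.eval (maxSteps M K α n : ℝ)

/-- Running a transition system: starting in `c`, the answer `b` is given after exactly `t` steps. -/
def HaltsWith {C : Type*} (answer : C → Option Bool) (next : C → C) (c : C) (b : Bool) (t : ℕ) :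
    Prop :=
  answer (next^[t] c) = some b ∧ ∀ s < t, answer (next^[s] c) = none

theorem HaltsWith.det {C : Type*} {answer : C → Option Bool} {next : C → C} {c : C}
    {b b' : Bool} {t t' : ℕ} (h : HaltsWith answer next c b t) (h' : HaltsWith answer next c b' t') :
    b = b' ∧ t = t' := by
  rcases lt_trichotomy t t' with hlt | heq | hgt
  · have := h'.2 t hlt
    rw [h.1] at this
    exact absurd this (by simp)
  · subst heq
    have := h.1.symm.trans h'.1
    exact ⟨by simpa using this, rfl⟩
  · have := h.2 t' hgt
    rw [h'.1] at this
    exact absurd this (by simp)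

/-! ### Multitape Turing machines -/

/-- Head moves. -/
inductive Dir
  | left
  | stay
  | right

/-- The shift of the head position made by a move. -/
def Dir.shift : Dir → ℤ
  | .left => -1
  | .stay => 0
  | .right => 1

/-- A deterministic Turing machine with `k + 1` two-way infinite tapes, a finite tape alphabet `Γ`
and a finite state set `Q`. The blank is `letter none`. In state `q`, reading `a`, the machine
halts with answer `b` if `δ q a = inl b`; otherwise it changes state, writes on and moves each
tape. -/
structure TM : Type 1 where
  k : ℕ
  Γ : Type
  finΓ : Finite Γ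
  Q : Type
  finQ : Finite Q
  letter : Option Sym ↪ Γ
  start : Q
  δ : Q → (Fin (k + 1) → Γ) → Bool ⊕ (Q × (Fin (k + 1) → Γ) × (Fin (k + 1) → Dir))

/-- Configurations of a Turing machine. -/
structure TM.Cfg (M : TM) where
  q : M.Q
  head : Fin (M.k + 1) → ℤ
  tape : Fin (M.k + 1) → ℤ → M.Γ

/-- The scanned symbols. -/
def TM.Cfg.scan {M : TM} (c : M.Cfg) : Fin (M.k + 1) → M.Γ := fun i => c.tape i (c.head i)

/-- The answer, if the machine halts in the configuration `c`. -/
def TM.answer (M : TM) (c : M.Cfg) : Option Bool :=
  match M.δ c.q c.scan with
  | .inl b => some b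
  | .inr _ => none

/-- One step of the machine. -/
def TM.next (M : TM) (c : M.Cfg) : M.Cfg :=
  match M.δ c.q c.scan with
  | .inl _ => c
  | .inr r =>
    { q := r.1
      head := fun i => c.head i + (r.2.2 i).shift
      tape := fun i z => if z = c.head i then r.2.1 i else c.tape i z }

/-- The initial configuration: the input word is on tape `0`, on the cells `0, 1, 2, ...`. -/
def TM.init (M : TM) (w : List Sym) : M.Cfg where
  q := M.start
  head := fun _ => 0
  tape := fun i z => if i = 0 ∧ 0 ≤ z then M.letter w[z.toNat]? else M.letter none

/-- Deterministic multitape Turing machines as a model of computation. -/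
def turing : Model where
  Alg := TM
  Halts M w b t := HaltsWith M.answer M.next (M.init w) b t
  det _ _ _ _ _ _ h h' := h.det h'


end Pool.Agent.H82.TC
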