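import Pool.Agent.H82.TC.RlTest

set_option autoImplicit false

namespace Pool.Agent.H82.TC

open Filter

theorem poly_bound (p : Polynomial ℝ) : ∃ a : ℝ, 0 ≤ a ∧ ∀ x : ℝ, 0 ≤ x →
    p.eval x ≤ a * (1 + x) ^ p.natDegree := by
  refine ⟨∑ i ∈ Finset.range (p.natDegree + 1), |p.coeff i|,
    Finset.sum_nonneg fun i _ => abs_nonneg _, fun x hx => ?_⟩
  rw [Polynomial.eval_eq_sum_range, Finset.sum_mul]
  refine Finset.sum_le_sum fun i hi => ?_
  have hi' : i ≤ p.natDegree := by
    have := Finset.mem_range.1 hi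
    omega
  calc p.coeff i * x ^ i ≤ |p.coeff i| * x ^ i :=
        mul_le_mul_of_nonneg_right (le_abs_self _) (pow_nonneg hx i)
    _ ≤ |p.coeff i| * (1 + x) ^ p.natDegree := by
        refine mul_le_mul_of_nonneg_left ?_ (abs_nonneg _)
        calc x ^ i ≤ (1 + x) ^ i := pow_le_pow_left₀ hx (by linarith) i
          _ ≤ (1 + x) ^ p.natDegree := pow_le_pow_right₀ (by linarith) hi'

/-- Polynomial time tests are passed on by the conclusion of Q1. -/
theorem polyTest_of_conclusion {J K : FOClass} (hK : PolyTest K)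
    (h : Conclusion turing J K) : PolyTest J := by
  obtain ⟨p, hp⟩ := h
  obtain ⟨α, hα, C, hC⟩ := hK
  obtain ⟨β, hβ, hev⟩ := hp α hα
  obtain ⟨a, ha, hpa⟩ := poly_bound p
  obtain ⟨D, hD⟩ := exists_nat_ge (a * (1 + (C : ℝ)) ^ p.natDegree)
  refine ⟨β, hβ, D + C * p.natDegree, ?_⟩
  filter_upwards [hC, hev, eventually_ge_atTop 1] with n h1 h2 h3
  have h3' : (1 : ℝ) ≤ n := by exact_mod_cast h3
  have h1' : (maxSteps turing K α n : ℝ) ≤ C * (n : ℝ) ^ C := by exact_mod_cast h1
  have h4 : (maxSteps turing J β n : ℝ) ≤ D * (n : ℝ) ^ (C * p.natDegree) := by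
    calc (maxSteps turing J β n : ℝ) ≤ p.eval (maxSteps turing K α n : ℝ) := h2
      _ ≤ a * (1 + (maxSteps turing K α n : ℝ)) ^ p.natDegree := hpa _ (Nat.cast_nonneg _)
      _ ≤ a * ((1 + (C : ℝ)) * (n : ℝ) ^ C) ^ p.natDegree := by
          refine mul_le_mul_of_nonneg_left (pow_le_pow_left₀ (by positivity) ?_ _) ha
          have : (1 : ℝ) ≤ (n : ℝ) ^ C := one_le_pow₀ h3'
          linarith
      _ = a * (1 + (C : ℝ)) ^ p.natDegree * (n : ℝ) ^ (C * p.natDegree) := by
          rw [mul_pow, ← pow_mul]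
          ring
      _ ≤ D * (n : ℝ) ^ (C * p.natDegree) := mul_le_mul_of_nonneg_right hD (by positivity)
  have h5 : maxSteps turing J β n ≤ D * n ^ (C * p.natDegree) := by exact_mod_cast h4
  refine h5.trans (Nat.mul_le_mul (Nat.le_add_right _ _) ?_)
  exact Nat.pow_le_pow_right h3 (Nat.le_add_left _ _)

/-- `J` has a polynomial time isomorphism test iff the conclusion of Q1 holds for `J` and all `K`
which satisfy the hypothesis of Q1 and the growth condition given by `g`. -/
theorem polyTest_iff (J : FOClass) {g : ℕ → ℕ} {s : ℕ} (hg : ∃ᶠ n in atTop, 2 ≤ g n)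
    (hs : ∀ᶠ n in atTop, 1 ≤ g n ∧ g n ≤ 2 ^ n ^ s) :
    PolyTest J ↔ ∀ (K : FOClass) (q : Polynomial ℕ),
      (∀ n, J.types n ≤ q.eval (K.types n)) → (∀ᶠ n in atTop, g n ≤ K.types n) →
        Conclusion turing J K := by
  constructor
  · intro hJ K q _ hK
    refine conclusion_of_poly hJ ((hg.and_eventually hK).mono fun n hn => hn.1.trans hn.2) ?_
    filter_upwards [hs, hK] with n h1 h2 _
    omega
  · intro h
    obtain ⟨r, q, hr, hq⟩ := types_le_Rl J s
    refine polyTest_of_conclusion (polyTest_Rl r) (h (Rl r) q hq ?_)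
    filter_upwards [hs, eventually_ge_atTop 1] with n h1 hn
    exact h1.2.trans ((Nat.pow_le_pow_right (by norm_num) (Nat.pow_le_pow_right hn hr)).trans
      (Rl_types_ge r n))

end Pool.Agent.H82.TC
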