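import Pool.Agent.H82.TC.Mac

set_option autoImplicit false

namespace Pool.Agent.H82.TC

open Filter

/-! ### The program which compares two relations along two linear orders -/

def cmpB (d : ℕ) : Cmd :=
  .seq (clr 7) (.seq (add (17 + 7 * d) 7 6) (.seq (clr 8) (cmp (16 + 7 * d) 7 8)))

def inner (d : ℕ) (g : Cmd) : Cmd :=
  .seq (cmpB d) (.ite 7 isZ (.ite 8 isZ (.seq (mulAdd (18 + 7 * d) (13 + 7 * d) (11 + 7 * d))
    (.seq (mulAdd (19 + 7 * d) (14 + 7 * d) (12 + 7 * d)) g)) .skip) .skip)

def outer (d : ℕ) (g : Cmd) : Cmd :=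
  .seq (clr (17 + 7 * d)) (.seq (cnt (15 + 7 * d) (17 + 7 * d)) (.seq (clr (16 + 7 * d))
    (.seq (add 3 (16 + 7 * d) 6) (forN (14 + 7 * d) (inner d g)))))

def gen : ℕ → Cmd
  | 0 => .seq (clr 9) (.seq (add 2 9 6) (.seq (add 11 9 6) (.seq (clr 10) (.seq (add 4 10 6)
      (.seq (add 12 10 6) (.ite 9 isOne (.ite 10 isOne .skip (.seq (clr 5) (.inc 5)))
        (.ite 10 isOne (.seq (clr 5) (.inc 5)) .skip)))))))
  | d + 1 => .seq (clr (15 + 7 * d)) (.seq (add 1 (15 + 7 * d) 6)
      (forN (13 + 7 * d) (outer d (gen d))))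

/-- The relations agree on the tuples whose last coordinates have the codes `a` and `b`. -/
def Mat (w : List Sym) (n o1 o2 o3 o4 : ℕ) : ℕ → ℕ → ℕ → Prop
  | 0, a, b => (w[o2 + a]? = some .one ↔ w[o4 + b]? = some .one)
  | d + 1, a, b => ∀ x < n, ∀ y < n, ones w (o1 + n * x) n = ones w (o3 + n * y) n →
      Mat w n o1 o2 o3 o4 d (a * n + x) (b * n + y)

structure Ctx (w : List Sym) (n N M o1 o2 o3 o4 : ℕ) : Prop where
  one : ∀ i < n, w[i]? = some .one
  sep : w[n]? ≠ some .one
  hn : n ≤ M
  hM : 1 ≤ M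
  h1 : o1 + n * n ≤ M
  h2 : o2 + N ≤ M
  h3 : o3 + n * n ≤ M
  h4 : o4 + N ≤ M

structure Off (M o1 o2 o3 o4 : ℕ) (R : ℕ → ℕ) : Prop where
  le : ∀ i, R i ≤ M
  r1 : R 1 = o1
  r2 : R 2 = o2
  r3 : R 3 = o3
  r4 : R 4 = o4
  r6 : R 6 = 0

theorem Off.update {M o1 o2 o3 o4 : ℕ} {R : ℕ → ℕ} (h : Off M o1 o2 o3 o4 R) {i v : ℕ}
    (hi : i = 0 ∨ i = 5 ∨ 7 ≤ i) (hv : v ≤ M) : Off M o1 o2 o3 o4 (Function.update R i v) := by
  refine ⟨fun j => ?_, ?_, ?_, ?_, ?_, ?_⟩
  · by_cases hj : j = i
    · subst hj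
      rw [Function.update_self]
      exact hv
    · rw [Function.update_of_ne hj]
      exact h.le j
  · rw [Function.update_of_ne (by omega)]
    exact h.r1
  · rw [Function.update_of_ne (by omega)]
    exact h.r2
  · rw [Function.update_of_ne (by omega)]
    exact h.r3
  · rw [Function.update_of_ne (by omega)]
    exact h.r4
  · rw [Function.update_of_ne (by omega)]
    exact h.r6

section

variable {w : List Sym} {n N M o1 o2 o3 o4 : ℕ} (hc : Ctx w n N M o1 o2 o3 o4)

include hc

theorem cmpB_spec (d : ℕ) (R : ℕ → ℕ) (hR : Off M o1 o2 o3 o4 R)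
    (hq : R (16 + 7 * d) + n ≤ M) :
    Tri w (cmpB d) R (fun R' => Off M o1 o2 o3 o4 R' ∧
      R' 7 = R (17 + 7 * d) - ones w (R (16 + 7 * d)) n ∧
      R' 8 = ones w (R (16 + 7 * d)) n - R (17 + 7 * d) ∧
      R' (16 + 7 * d) = R (16 + 7 * d) + n ∧
      ∀ i, i ≠ 0 → i ≠ 7 → i ≠ 8 → i ≠ 16 + 7 * d → R' i = R i) (60 * (M + 1)) := by
  have hone := ones_le w (R (16 + 7 * d)) n
  have hn := hc.hn
  have hle17 := hR.le (17 + 7 * d)
  refine Tri.mono (Q := _) (T := 3 * M + 1 + (9 * M + 2 + (3 * M + 1 + (3 * M + 1 + (n * 9 + 1)))))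
    ?_ (fun _ h => h) (by omega)
  refine tri_seq (tri_clr (hR.le 7) ?_)
  have h1 := hR.update (i := 7) (v := 0) (by omega) (Nat.zero_le M)
  refine tri_seq (tri_add (by omega) (by omega) (by omega) h1.r6 (h1.le _) ?_)
  have e1 : Function.update (Function.update R 7 0) 7
      (Function.update R 7 0 7 + Function.update R 7 0 (17 + 7 * d)) =
      Function.update R 7 (R (17 + 7 * d)) := by
    rw [Function.update_idem, Function.update_self, Function.update_of_ne (by omega), Nat.zero_add]
  rw [e1]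
  have h2 := hR.update (i := 7) (v := R (17 + 7 * d)) (by omega) hle17
  refine tri_seq (tri_clr (h2.le 8) ?_)
  have h3 := h2.update (i := 8) (v := 0) (by omega) (Nat.zero_le M)
  refine tri_cmp hc.one hc.sep h3.le (by omega) (by omega) (by omega) (by omega) (by omega)
    (by omega) ?_
  obtain ⟨S, hS⟩ : ∃ S, S = Function.update (Function.update R 7 (R (17 + 7 * d))) 8 0 := ⟨_, rfl⟩
  rw [← hS] at h3 ⊢
  have s7 : S 7 = R (17 + 7 * d) := by
    rw [hS, Function.update_of_ne (by omega), Function.update_self]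
  have s8 : S 8 = 0 := by rw [hS, Function.update_self]
  have sq : S (16 + 7 * d) = R (16 + 7 * d) := by
    rw [hS, Function.update_of_ne (by omega), Function.update_of_ne (by omega)]
  rw [s7, s8, sq, Nat.zero_add]
  refine ⟨?_, ?_, ?_, ?_, ?_⟩
  · exact (((h3.update (i := 0) (by omega) hn).update (i := 7) (by omega) (by omega)).update
      (i := 8) (by omega) (by omega)).update (i := 16 + 7 * d) (by omega) hq
  · rw [Function.update_of_ne (by omega), Function.update_of_ne (by omega), Function.update_self]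
  · rw [Function.update_of_ne (by omega), Function.update_self]
  · rw [Function.update_self]
  · intro i i0 i7 i8 iq
    rw [Function.update_of_ne iq, Function.update_of_ne i8, Function.update_of_ne i7,
      Function.update_of_ne i0, hS, Function.update_of_ne i8, Function.update_of_ne i7]

/-- What the program `g` of level `d` does. -/
def GSpec (w : List Sym) (n N M o1 o2 o3 o4 d : ℕ) (g : Cmd) (T : ℕ) : Prop :=
  ∀ R, Off M o1 o2 o3 o4 R → (R (11 + 7 * d) + 1) * n ^ d ≤ N → (R (12 + 7 * d) + 1) * n ^ d ≤ N →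
    Tri w g R (fun R' => Off M o1 o2 o3 o4 R' ∧ (∀ i, 11 + 7 * d ≤ i → R' i = R i) ∧
      (R' 5 = 0 ↔ R 5 = 0 ∧ Mat w n o1 o2 o3 o4 d (R (11 + 7 * d)) (R (12 + 7 * d)))) T

theorem code_le {a x d : ℕ} (hx : x < n) (ha : (a + 1) * n ^ (d + 1) ≤ N) :
    (a * n + x + 1) * n ^ d ≤ N ∧ a * n + x ≤ M := by
  have h1 : (a * n + x + 1) * n ^ d ≤ N := by
    calc (a * n + x + 1) * n ^ d ≤ (a * n + n) * n ^ d := Nat.mul_le_mul_right _ (by omega)
      _ = (a + 1) * n ^ (d + 1) := by rw [pow_succ]; ring
      _ ≤ N := ha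
  refine ⟨h1, ?_⟩
  have h2 : 1 ≤ n ^ d := Nat.one_le_pow _ _ (by omega)
  have h3 : a * n + x + 1 ≤ (a * n + x + 1) * n ^ d := Nat.le_mul_of_pos_right _ h2
  have := hc.h2
  omega

theorem inner_spec {d T : ℕ} {g : Cmd} (hg : GSpec w n N M o1 o2 o3 o4 d g T)
    (R : ℕ → ℕ) (hR : Off M o1 o2 o3 o4 R) {x y a b : ℕ} (hx : x < n) (hy : y < n)
    (rx : R (13 + 7 * d) = x) (ry : R (14 + 7 * d) = y) (rq : R (16 + 7 * d) = o3 + n * y)
    (rz : R (17 + 7 * d) = ones w (o1 + n * x) n) (ra : R (18 + 7 * d) = a)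
    (rb : R (19 + 7 * d) = b) (ha : (a + 1) * n ^ (d + 1) ≤ N)
    (hb : (b + 1) * n ^ (d + 1) ≤ N) :
    Tri w (inner d g) R (fun R' => Off M o1 o2 o3 o4 R' ∧ R' (16 + 7 * d) = o3 + n * (y + 1) ∧
      (∀ i, 13 + 7 * d ≤ i → i ≠ 16 + 7 * d → R' i = R i) ∧
      (R' 5 = 0 ↔ R 5 = 0 ∧ (ones w (o1 + n * x) n = ones w (o3 + n * y) n →
        Mat w n o1 o2 o3 o4 d (a * n + x) (b * n + y)))) (T + 104 * (M + 1) ^ 2) := by
  have hny : n * (y + 1) ≤ n * n := Nat.mul_le_mul_left n hy
  have hny' : n * (y + 1) = n * y + n := by ring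
  have h3 := hc.h3
  obtain ⟨ha1, ha2⟩ := code_le hc hx ha
  obtain ⟨hb1, hb2⟩ := code_le hc hy hb
  have hsq : M + 1 ≤ (M + 1) ^ 2 := Nat.le_self_pow (by norm_num) _
  refine Tri.mono (Q := _) (T := 60 * (M + 1) + ((20 * (M + 1) ^ 2 + (20 * (M + 1) ^ 2 + T)) +
    2 + 2)) ?_ (fun _ h => h) (by omega)
  refine tri_seq ((cmpB_spec hc d R hR (by rw [rq]; omega)).mono (fun S hS => ?_) le_rfl)
  obtain ⟨hO, s7, s8, sq, sk⟩ := hS
  rw [rz, rq] at s7 s8
  rw [rq] at sq
  refine tri_ite (fun h7 => tri_ite (fun h8 => ?_) (fun h8 => ?_)) (fun h7 => ?_)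
  · have e7 : S 7 = 0 := by simpa [isZ] using h7
    have e8 : S 8 = 0 := by simpa [isZ] using h8
    have heq : ones w (o1 + n * x) n = ones w (o3 + n * y) n := by omega
    have sx : S (13 + 7 * d) = x := by
      rw [sk _ (by omega) (by omega) (by omega) (by omega), rx]
    have sy : S (14 + 7 * d) = y := by
      rw [sk _ (by omega) (by omega) (by omega) (by omega), ry]
    have sa : S (18 + 7 * d) = a := by
      rw [sk _ (by omega) (by omega) (by omega) (by omega), ra]
    have sb : S (19 + 7 * d) = b := by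
      rw [sk _ (by omega) (by omega) (by omega) (by omega), rb]
    refine tri_seq (tri_mulAdd hc.one hc.sep hO.le hc.hn hO.r6 (by omega) (by omega) (by omega)
      (by omega) (by omega) (by omega) (by omega) (by omega) ?_)
    rw [sa, sx]
    obtain ⟨S1, hS1⟩ : ∃ S1, S1 = Function.update (Function.update S 0 n) (11 + 7 * d)
      (a * n + x) := ⟨_, rfl⟩
    have hO1 : Off M o1 o2 o3 o4 S1 := by
      rw [hS1]
      exact (hO.update (i := 0) (by omega) hc.hn).update (i := 11 + 7 * d) (by omega) ha2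
    rw [← hS1]
    have k1 : ∀ i, i ≠ 0 → i ≠ 11 + 7 * d → S1 i = S i := by
      intro i i0 i1
      rw [hS1, Function.update_of_ne i1, Function.update_of_ne i0]
    refine tri_seq (tri_mulAdd hc.one hc.sep hO1.le hc.hn hO1.r6 (by omega) (by omega) (by omega)
      (by omega) (by omega) (by omega) (by omega) (by omega) ?_)
    rw [k1 (19 + 7 * d) (by omega) (by omega), k1 (14 + 7 * d) (by omega) (by omega), sb, sy]
    obtain ⟨S2, hS2⟩ : ∃ S2, S2 = Function.update (Function.update S1 0 n) (12 + 7 * d)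
      (b * n + y) := ⟨_, rfl⟩
    have hO2 : Off M o1 o2 o3 o4 S2 := by
      rw [hS2]
      exact (hO1.update (i := 0) (by omega) hc.hn).update (i := 12 + 7 * d) (by omega) hb2
    rw [← hS2]
    have k2 : ∀ i, i ≠ 0 → i ≠ 12 + 7 * d → S2 i = S1 i := by
      intro i i0 i1
      rw [hS2, Function.update_of_ne i1, Function.update_of_ne i0]
    have e11 : S2 (11 + 7 * d) = a * n + x := by
      rw [k2 _ (by omega) (by omega), hS1, Function.update_self]
    have e12 : S2 (12 + 7 * d) = b * n + y := by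
      rw [hS2, Function.update_self]
    refine (hg S2 hO2 (by rw [e11]; exact ha1) (by rw [e12]; exact hb1)).mono
      (fun R' hR' => ?_) le_rfl
    obtain ⟨hO3, hk3, hb3⟩ := hR'
    refine ⟨hO3, ?_, ?_, ?_⟩
    · rw [hk3 _ (by omega), k2 _ (by omega) (by omega), k1 _ (by omega) (by omega), sq]
      ring
    · intro i hi hi2
      rw [hk3 _ (by omega), k2 _ (by omega) (by omega), k1 _ (by omega) (by omega),
        sk _ (by omega) (by omega) (by omega) hi2]
    · rw [hb3, e11, e12, k2 _ (by omega) (by omega), k1 _ (by omega) (by omega),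
        sk _ (by omega) (by omega) (by omega) (by omega)]
      simp [heq]
  · have e8 : S 8 ≠ 0 := by simpa [isZ] using h8
    have hne : ¬ ones w (o1 + n * x) n = ones w (o3 + n * y) n := by omega
    refine Tri.mono (tri_skip (Q := _) ?_) (fun _ h => h) (Nat.zero_le _)
    refine ⟨hO, by rw [sq]; ring, fun i hi hi2 => sk _ (by omega) (by omega) (by omega) hi2, ?_⟩
    rw [sk 5 (by omega) (by omega) (by omega) (by omega)]
    simp [hne]
  · have e7 : S 7 ≠ 0 := by simpa [isZ] using h7
    have hne : ¬ ones w (o1 + n * x) n = ones w (o3 + n * y) n := by omega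
    refine Tri.mono (tri_skip (Q := _) ?_) (fun _ h => h) (Nat.zero_le _)
    refine ⟨hO, by rw [sq]; ring, fun i hi hi2 => sk _ (by omega) (by omega) (by omega) hi2, ?_⟩
    rw [sk 5 (by omega) (by omega) (by omega) (by omega)]
    simp [hne]

theorem outer_spec {d T : ℕ} {g : Cmd} (hg : GSpec w n N M o1 o2 o3 o4 d g T)
    (R : ℕ → ℕ) (hR : Off M o1 o2 o3 o4 R) {x a b : ℕ} (hx : x < n)
    (rx : R (13 + 7 * d) = x) (rp : R (15 + 7 * d) = o1 + n * x)
    (ra : R (18 + 7 * d) = a) (rb : R (19 + 7 * d) = b) (ha : (a + 1) * n ^ (d + 1) ≤ N)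
    (hb : (b + 1) * n ^ (d + 1) ≤ N) :
    Tri w (outer d g) R (fun R' => Off M o1 o2 o3 o4 R' ∧ R' (15 + 7 * d) = o1 + n * (x + 1) ∧
      R' (13 + 7 * d) = x ∧ (∀ i, 18 + 7 * d ≤ i → R' i = R i) ∧
      (R' 5 = 0 ↔ R 5 = 0 ∧ ∀ y < n, ones w (o1 + n * x) n = ones w (o3 + n * y) n →
        Mat w n o1 o2 o3 o4 d (a * n + x) (b * n + y))) ((M + 1) * (T + 180 * (M + 1) ^ 2)) := by
  have hnx : n * (x + 1) ≤ n * n := Nat.mul_le_mul_left n hx
  have hnx' : n * (x + 1) = n * x + n := by ring
  have h1 := hc.h1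
  have h3 := hc.h3
  have hn := hc.hn
  have hone := ones_le w (o1 + n * x) n
  refine Tri.mono (Q := _) (T := 3 * M + 1 + (3 * M + 1 + (n * 7 + 1) + (3 * M + 1 +
    (9 * M + 2 + (3 * M + 1 + (n * (T + 104 * (M + 1) ^ 2 + 3) + 1)))))) ?_ (fun _ h => h) ?_
  · refine tri_seq (tri_clr (hR.le _) ?_)
    have hO1 := hR.update (i := 17 + 7 * d) (v := 0) (by omega) (Nat.zero_le M)
    refine tri_seq (tri_cnt hc.one hc.sep hO1.le (by omega) (by omega) (by omega) ?_)
    have e1 : Function.update R (17 + 7 * d) 0 (15 + 7 * d) = o1 + n * x := by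
      rw [Function.update_of_ne (by omega), rp]
    rw [e1, Function.update_self, Nat.zero_add]
    obtain ⟨S1, hS1⟩ : ∃ S1, S1 = Function.update (Function.update (Function.update
      (Function.update R (17 + 7 * d) 0) 0 n) (17 + 7 * d) (ones w (o1 + n * x) n)) (15 + 7 * d)
      (o1 + n * x + n) := ⟨_, rfl⟩
    rw [← hS1]
    have hO2 : Off M o1 o2 o3 o4 S1 := by
      rw [hS1]
      exact ((hO1.update (i := 0) (by omega) hn).update (i := 17 + 7 * d) (by omega)
        (by omega)).update (i := 15 + 7 * d) (by omega) (by omega)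
    have k1 : ∀ i, i ≠ 0 → i ≠ 15 + 7 * d → i ≠ 17 + 7 * d → S1 i = R i := by
      intro i i0 i1 i2
      rw [hS1, Function.update_of_ne i1, Function.update_of_ne i2, Function.update_of_ne i0,
        Function.update_of_ne i2]
    have p1 : S1 (15 + 7 * d) = o1 + n * x + n := by rw [hS1, Function.update_self]
    have z1 : S1 (17 + 7 * d) = ones w (o1 + n * x) n := by
      rw [hS1, Function.update_of_ne (by omega), Function.update_self]
    refine tri_seq (tri_clr (hO2.le _) ?_)
    have hO3 := hO2.update (i := 16 + 7 * d) (v := 0) (by omega) (Nat.zero_le M)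
    refine tri_seq (tri_add (by omega) (by omega) (by omega) hO3.r6 (hO3.le _) ?_)
    have e2 : Function.update (Function.update S1 (16 + 7 * d) 0) (16 + 7 * d)
        (Function.update S1 (16 + 7 * d) 0 (16 + 7 * d) +
          Function.update S1 (16 + 7 * d) 0 3) = Function.update S1 (16 + 7 * d) o3 := by
      rw [Function.update_idem, Function.update_self, Function.update_of_ne (by omega),
        Nat.zero_add, hO2.r3]
    rw [e2]
    obtain ⟨S, hS⟩ : ∃ S, S = Function.update S1 (16 + 7 * d) o3 := ⟨_, rfl⟩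
    rw [← hS]
    have hO4 : Off M o1 o2 o3 o4 S := by
      rw [hS]
      exact hO2.update (by omega) (by omega)
    have k : ∀ i, i ≠ 16 + 7 * d → S i = S1 i := by
      intro i i1
      rw [hS, Function.update_of_ne i1]
    have q1 : S (16 + 7 * d) = o3 := by rw [hS, Function.update_self]
    refine (tri_for (T := T + 104 * (M + 1) ^ 2) hc.one hc.sep (hO4.le _)
      (fun j R' => Off M o1 o2 o3 o4 R' ∧ R' (14 + 7 * d) = j ∧ R' (16 + 7 * d) = o3 + n * j ∧
        (∀ i, 13 + 7 * d ≤ i → i ≠ 14 + 7 * d → i ≠ 16 + 7 * d → R' i = S i) ∧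
        (R' 5 = 0 ↔ R 5 = 0 ∧ ∀ y < j, ones w (o1 + n * x) n = ones w (o3 + n * y) n →
          Mat w n o1 o2 o3 o4 d (a * n + x) (b * n + y))) (fun j R' h => h.2.1) ?_ ?_).mono
      (fun R' hR' => ?_) le_rfl
    · intro j hj R' ⟨g1, g2, g3, g4, g5⟩
      have hnj : n * (j + 1) ≤ n * n := Nat.mul_le_mul_left n hj
      refine (inner_spec hc hg R' g1 (x := x) (y := j) (a := a) (b := b) hx hj ?_ g2 g3 ?_ ?_ ?_
        ha hb).mono (fun R'' hR'' => ?_) le_rfl
      · rw [g4 _ (by omega) (by omega) (by omega), k _ (by omega),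
          k1 _ (by omega) (by omega) (by omega), rx]
      · rw [g4 _ (by omega) (by omega) (by omega), k _ (by omega), z1]
      · rw [g4 _ (by omega) (by omega) (by omega), k _ (by omega),
          k1 _ (by omega) (by omega) (by omega), ra]
      · rw [g4 _ (by omega) (by omega) (by omega), k _ (by omega),
          k1 _ (by omega) (by omega) (by omega), rb]
      · obtain ⟨f1, f2, f3, f4⟩ := hR''
        refine ⟨by rw [f3 _ (by omega) (by omega), g2], f1.update (by omega) (by omega),
          by rw [Function.update_self], ?_, ?_, ?_⟩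
        · rw [Function.update_of_ne (by omega), f2]
        · intro i i1 i2 i3
          rw [Function.update_of_ne i2, f3 i i1 i3, g4 i i1 i2 i3]
        · rw [Function.update_of_ne (by omega), f4, g5]
          constructor
          · rintro ⟨⟨h5, h6⟩, h7⟩
            refine ⟨h5, fun y hy => ?_⟩
            rcases Nat.lt_succ_iff_lt_or_eq.1 hy with h8 | h8
            · exact h6 y h8
            · rw [h8]
              exact h7
          · rintro ⟨h5, h6⟩
            exact ⟨⟨h5, fun y hy => h6 y (by omega)⟩, h6 j (by omega)⟩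
    · refine ⟨hO4.update (by omega) (Nat.zero_le M), by rw [Function.update_self], ?_, ?_, ?_⟩
      · rw [Function.update_of_ne (by omega), q1, Nat.mul_zero, Nat.add_zero]
      · intro i i1 i2 i3
        rw [Function.update_of_ne i2]
      · rw [Function.update_of_ne (by omega), k _ (by omega),
          k1 _ (by omega) (by omega) (by omega)]
        simp
    · obtain ⟨g1, g2, g3, g4, g5⟩ := hR'
      refine ⟨g1, ?_, ?_, ?_, g5⟩
      · rw [g4 _ (by omega) (by omega) (by omega), k _ (by omega), p1]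
        omega
      · rw [g4 _ (by omega) (by omega) (by omega), k _ (by omega),
          k1 _ (by omega) (by omega) (by omega), rx]
      · intro i hi
        rw [g4 _ (by omega) (by omega) (by omega), k _ (by omega),
          k1 _ (by omega) (by omega) (by omega)]
  · obtain ⟨E, hE⟩ : ∃ E, E = (M + 1) ^ 2 := ⟨_, rfl⟩
    have hE1 : M + 1 ≤ E := by rw [hE]; exact Nat.le_self_pow (by norm_num) _
    rw [← hE]
    have h5 : n * (T + 104 * E + 3) ≤ M * (T + 104 * E + 3) := Nat.mul_le_mul_right _ hn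
    have h6 : (M + 1) * (T + 180 * E) = M * (T + 104 * E + 3) + (76 * (M * E) + T + 180 * E -
      3 * M) + 0 := by
      have : 3 * M ≤ 76 * (M * E) + T + 180 * E := by omega
      zify [this]
      ring
    have h7 : 0 ≤ M * E := Nat.zero_le _
    omega

/-- The time bound. -/
def Tg (M : ℕ) : ℕ → ℕ
  | 0 => 100 * (M + 1) ^ 2
  | d + 1 => (M + 1) ^ 2 * (Tg M d + 300 * (M + 1) ^ 2)

theorem gen_spec (d : ℕ) : GSpec w n N M o1 o2 o3 o4 d (gen d) (Tg M d) := by
  have h1 := hc.h1
  have h2 := hc.h2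
  have h4 := hc.h4
  have hn := hc.hn
  induction d with
  | zero =>
    intro R hR ha hb
    simp only [pow_zero, Nat.mul_one, Nat.mul_zero, Nat.add_zero] at ha hb ⊢
    have hsq : M + 1 ≤ (M + 1) ^ 2 := Nat.le_self_pow (by norm_num) _
    refine Tri.mono (Q := _) (T := 3 * M + 1 + (9 * M + 2 + (9 * M + 2 + (3 * M + 1 + (9 * M + 2 +
      (9 * M + 2 + ((3 * M + 1 + 1) + 2 + 2))))))) ?_ (fun _ h => h) (by simp only [Tg]; omega)
    refine tri_seq (tri_clr (hR.le _) ?_)
    have g1 := hR.update (i := 9) (v := 0) (by omega) (Nat.zero_le M)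
    refine tri_seq (tri_add (by omega) (by omega) (by omega) g1.r6 (g1.le _) ?_)
    have e1 : Function.update (Function.update R 9 0) 9 (Function.update R 9 0 9 +
        Function.update R 9 0 2) = Function.update R 9 o2 := by
      rw [Function.update_idem, Function.update_self, g1.r2, Nat.zero_add]
    rw [e1]
    have g2 := hR.update (i := 9) (v := o2) (by omega) (by omega)
    refine tri_seq (tri_add (by omega) (by omega) (by omega) g2.r6 (g2.le _) ?_)
    have e2 : Function.update (Function.update R 9 o2) 9 (Function.update R 9 o2 9 +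
        Function.update R 9 o2 11) = Function.update R 9 (o2 + R 11) := by
      rw [Function.update_idem, Function.update_self, Function.update_of_ne (by omega)]
    rw [e2]
    have g3 := hR.update (i := 9) (v := o2 + R 11) (by omega) (by omega)
    refine tri_seq (tri_clr (g3.le _) ?_)
    have g4 := g3.update (i := 10) (v := 0) (by omega) (Nat.zero_le M)
    refine tri_seq (tri_add (by omega) (by omega) (by omega) g4.r6 (g4.le _) ?_)
    obtain ⟨S, hS⟩ : ∃ S, S = Function.update R 9 (o2 + R 11) := ⟨_, rfl⟩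
    rw [← hS] at g3 g4 ⊢
    have e3 : Function.update (Function.update S 10 0) 10 (Function.update S 10 0 10 +
        Function.update S 10 0 4) = Function.update S 10 o4 := by
      rw [Function.update_idem, Function.update_self, g4.r4, Nat.zero_add]
    rw [e3]
    have g5 := g3.update (i := 10) (v := o4) (by omega) (by omega)
    refine tri_seq (tri_add (by omega) (by omega) (by omega) g5.r6 (g5.le _) ?_)
    have s12 : S 12 = R 12 := by rw [hS, Function.update_of_ne (by omega)]
    have e4 : Function.update (Function.update S 10 o4) 10 (Function.update S 10 o4 10 +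
        Function.update S 10 o4 12) = Function.update S 10 (o4 + R 12) := by
      rw [Function.update_idem, Function.update_self, Function.update_of_ne (by omega), s12]
    rw [e4]
    have g6 := g3.update (i := 10) (v := o4 + R 12) (by omega) (by omega)
    obtain ⟨U, hU⟩ : ∃ U, U = Function.update S 10 (o4 + R 12) := ⟨_, rfl⟩
    rw [← hU] at g6 ⊢
    have u9 : U 9 = o2 + R 11 := by
      rw [hU, Function.update_of_ne (by omega), hS, Function.update_self]
    have u10 : U 10 = o4 + R 12 := by rw [hU, Function.update_self]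
    have uk : ∀ i, i ≠ 9 → i ≠ 10 → U i = R i := by
      intro i i1 i2
      rw [hU, Function.update_of_ne i2, hS, Function.update_of_ne i1]
    have hgood : (w[o2 + R 11]? = some Sym.one ↔ w[o4 + R 12]? = some Sym.one) →
        Tri w .skip U (fun R' => Off M o1 o2 o3 o4 R' ∧ (∀ i, 11 ≤ i → R' i = R i) ∧
      (R' 5 = 0 ↔ R 5 = 0 ∧ Mat w n o1 o2 o3 o4 0 (R 11) (R 12))) (3 * M + 1 + 1) := by
      intro hm
      refine Tri.mono (tri_skip (Q := _) ?_) (fun _ h => h) (Nat.zero_le _)
      refine ⟨g6, fun i hi => uk i (by omega) (by omega), ?_⟩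
      rw [uk 5 (by omega) (by omega)]
      simp [Mat, hm]
    have hbad : ¬ (w[o2 + R 11]? = some Sym.one ↔ w[o4 + R 12]? = some Sym.one) →
        Tri w (.seq (clr 5) (.inc 5)) U (fun R' => Off M o1 o2 o3 o4 R' ∧
          (∀ i, 11 ≤ i → R' i = R i) ∧
      (R' 5 = 0 ↔ R 5 = 0 ∧ Mat w n o1 o2 o3 o4 0 (R 11) (R 12))) (3 * M + 1 + 1) := by
      intro hm
      refine tri_seq (tri_clr (g6.le _) (tri_inc ?_))
      rw [Function.update_self, Function.update_idem]
      refine ⟨g6.update (by omega) hc.hM, fun i hi => ?_, ?_⟩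
      · rw [Function.update_of_ne (by omega), uk i (by omega) (by omega)]
      · rw [Function.update_self]
        simp [Mat, hm]
    refine tri_ite (fun h9 => ?_) (fun h9 => ?_)
    · rw [u9] at h9
      have h9' := (isOne_iff _ _).1 h9
      refine tri_ite (fun h10 => ?_) (fun h10 => ?_)
      · rw [u10] at h10
        have h10' := (isOne_iff _ _).1 h10
        exact hgood (by simp [h9', h10'])
      · rw [u10] at h10
        have h10' : ¬ w[o4 + R 12]? = some Sym.one := by
          intro h
          rw [(isOne_iff _ _).2 h] at h10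
          exact absurd h10 (by simp)
        exact hbad (by simp [h9', h10'])
    · rw [u9] at h9
      have h9' : ¬ w[o2 + R 11]? = some Sym.one := by
        intro h
        rw [(isOne_iff _ _).2 h] at h9
        exact absurd h9 (by simp)
      refine tri_ite (fun h10 => ?_) (fun h10 => ?_)
      · rw [u10] at h10
        have h10' := (isOne_iff _ _).1 h10
        exact hbad (by simp [h9', h10'])
      · rw [u10] at h10
        have h10' : ¬ w[o4 + R 12]? = some Sym.one := by
          intro h
          rw [(isOne_iff _ _).2 h] at h10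
          exact absurd h10 (by simp)
        exact hgood (by simp [h9', h10'])
  | succ d ih =>
    intro R hR ha hb
    rw [show 11 + 7 * (d + 1) = 18 + 7 * d by ring] at ha ⊢
    rw [show 12 + 7 * (d + 1) = 19 + 7 * d by ring] at hb ⊢
    refine Tri.mono (Q := _) (T := 3 * M + 1 + (9 * M + 2 + (3 * M + 1 +
      (n * ((M + 1) * (Tg M d + 180 * (M + 1) ^ 2) + 3) + 1)))) ?_ (fun _ h => h) ?_
    · refine tri_seq (tri_clr (hR.le _) ?_)
      have g1 := hR.update (i := 15 + 7 * d) (v := 0) (by omega) (Nat.zero_le M)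
      refine tri_seq (tri_add (by omega) (by omega) (by omega) g1.r6 (g1.le _) ?_)
      have e1 : Function.update (Function.update R (15 + 7 * d) 0) (15 + 7 * d)
          (Function.update R (15 + 7 * d) 0 (15 + 7 * d) +
            Function.update R (15 + 7 * d) 0 1) = Function.update R (15 + 7 * d) o1 := by
        rw [Function.update_idem, Function.update_self, g1.r1, Nat.zero_add]
      rw [e1]
      have g2 := hR.update (i := 15 + 7 * d) (v := o1) (by omega) (by omega)
      refine (tri_for (T := (M + 1) * (Tg M d + 180 * (M + 1) ^ 2)) hc.one hc.sep (g2.le _)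
        (fun j R' => Off M o1 o2 o3 o4 R' ∧ R' (13 + 7 * d) = j ∧
          R' (15 + 7 * d) = o1 + n * j ∧ (∀ i, 18 + 7 * d ≤ i → R' i = R i) ∧
          (R' 5 = 0 ↔ R 5 = 0 ∧ ∀ x < j, ∀ y < n,
            ones w (o1 + n * x) n = ones w (o3 + n * y) n →
            Mat w n o1 o2 o3 o4 d (R (18 + 7 * d) * n + x) (R (19 + 7 * d) * n + y)))
        (fun j R' h => h.2.1) ?_ ?_).mono (fun R' hR' => ?_) le_rfl
      · intro j hj R' ⟨f1, f2, f3, f4, f5⟩
        refine (outer_spec hc ih R' f1 (x := j) hj f2 f3 (f4 _ (by omega)) (f4 _ (by omega))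
          ha hb).mono (fun R'' hR'' => ?_) le_rfl
        obtain ⟨q1, q2, q3, q4, q5⟩ := hR''
        refine ⟨q3, q1.update (by omega) (by omega), by rw [Function.update_self], ?_, ?_, ?_⟩
        · rw [Function.update_of_ne (by omega), q2]
        · intro i hi
          rw [Function.update_of_ne (by omega), q4 i hi, f4 i hi]
        · rw [Function.update_of_ne (by omega), q5, f5]
          constructor
          · rintro ⟨⟨h5, h6⟩, h7⟩
            refine ⟨h5, fun x hx => ?_⟩
            rcases Nat.lt_succ_iff_lt_or_eq.1 hx with h8 | h8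
            · exact h6 x h8
            · rw [h8]
              exact h7
          · rintro ⟨h5, h6⟩
            exact ⟨⟨h5, fun x hx => h6 x (by omega)⟩, h6 j (by omega)⟩
      · refine ⟨g2.update (by omega) (Nat.zero_le M), by rw [Function.update_self], ?_, ?_, ?_⟩
        · rw [Function.update_of_ne (by omega), Function.update_self, Nat.mul_zero, Nat.add_zero]
        · intro i hi
          rw [Function.update_of_ne (by omega), Function.update_of_ne (by omega)]
        · rw [Function.update_of_ne (by omega), Function.update_of_ne (by omega)]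
          simp
      · obtain ⟨f1, f2, f3, f4, f5⟩ := hR'
        exact ⟨f1, f4, f5⟩
    · obtain ⟨E, hE⟩ : ∃ E, E = (M + 1) ^ 2 := ⟨_, rfl⟩
      have hE1 : M + 1 ≤ E := by rw [hE]; exact Nat.le_self_pow (by norm_num) _
      have hE2 : (M + 1) * (M + 1) = E := by rw [hE]; ring
      simp only [Tg]
      rw [← hE]
      have h5 : n * ((M + 1) * (Tg M d + 180 * E) + 3) ≤
          (M + 1) * ((M + 1) * (Tg M d + 180 * E) + 3) := Nat.mul_le_mul_right _ (by omega)
      have h6 : (M + 1) * ((M + 1) * (Tg M d + 180 * E) + 3) =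
          E * (Tg M d + 180 * E) + 3 * (M + 1) := by
        rw [← hE2]
        ring
      have h7 : E * (Tg M d + 300 * E) = E * (Tg M d + 180 * E) + 120 * (E * E) := by ring
      have h8 : E ≤ E * E := Nat.le_mul_of_pos_right _ (by omega)
      omega

end

end Pool.Agent.H82.TC
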