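import Pool.Agent.H82.TC.Code

set_option autoImplicit false

namespace Pool.Agent.H82.TC

open Filter

/-! ### Machines which read a prefix of bounded length -/

theorem finite_sym : Finite Sym := by
  refine Finite.of_surjective (fun i : Fin 3 => ![Sym.zero, Sym.one, Sym.sep] i) ?_
  intro s
  cases s
  · exact ⟨0, rfl⟩
  · exact ⟨1, rfl⟩
  · exact ⟨2, rfl⟩

theorem finite_words (T : ℕ) : Finite {w : List Sym // w.length ≤ T} := by
  have := finite_sym
  exact (List.finite_length_le Sym T).to_subtype

/-- The machine which reads the first `T` letters of the input and then answers according to the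
table `D`. -/
def lookTM (T : ℕ) (D : List Sym → Bool) : TM where
  k := 0
  Γ := Option Sym
  finΓ := by
    have := finite_sym
    infer_instance
  Q := {w : List Sym // w.length ≤ T}
  finQ := finite_words T
  letter := Function.Embedding.refl _
  start := ⟨[], Nat.zero_le _⟩
  δ := fun q s =>
    match s 0 with
    | none => .inl (D q.1)
    | some x =>
      if h : q.1.length < T then
        .inr (⟨q.1 ++ [x], by simpa using h⟩, s, fun _ => Dir.right)
      else .inl (D q.1)

/-- The configuration of `lookTM` after `j` steps. -/
def lookCfg (T : ℕ) (D : List Sym → Bool) (w : List Sym) (j : ℕ) (h : j ≤ T) :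
    (lookTM T D).Cfg where
  q := ⟨w.take j, (List.length_take_le j w).trans h⟩
  head := fun _ => j
  tape := ((lookTM T D).init w).tape

theorem lookCfg_scan (T : ℕ) (D : List Sym → Bool) (w : List Sym) (j : ℕ) (h : j ≤ T)
    (i : Fin 1) : (lookCfg T D w j h).scan i = w[j]? := by
  have : i = 0 := Subsingleton.elim _ _
  subst this
  unfold TM.Cfg.scan lookCfg TM.init
  simp only [Fin.isValue, Nat.cast_nonneg, Int.toNat_natCast]
  rfl

theorem lookTM_next (T : ℕ) (D : List Sym → Bool) (w : List Sym) (j : ℕ) (h : j < T)
    (hw : j < w.length) : (lookTM T D).answer (lookCfg T D w j h.le) = none ∧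
    (lookTM T D).next (lookCfg T D w j h.le) = lookCfg T D w (j + 1) h := by
  have hlen : (w.take j).length < T := lt_of_le_of_lt (List.length_take_le j w) h
  have hδ : (lookTM T D).δ (lookCfg T D w j h.le).q (lookCfg T D w j h.le).scan =
      .inr (⟨w.take j ++ [w[j]], by rw [List.length_append]; exact hlen⟩, (lookCfg T D w j h.le).scan,
        fun _ => Dir.right) := by
    have hs : (lookCfg T D w j h.le).scan (0 : Fin 1) = some w[j] := by
      rw [lookCfg_scan, List.getElem?_eq_getElem hw]
    simp only [lookTM] at hs ⊢
    rw [hs]
    simp only [lookCfg]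
    exact dif_pos hlen
  constructor
  · unfold TM.answer
    rw [hδ]
  · unfold TM.next
    rw [hδ]
    simp only
    unfold lookCfg
    congr 1
    · exact Subtype.ext (List.take_append_getElem hw)
    · funext i z
      split_ifs with hz
      · have h1 := lookCfg_scan T D w j h.le i
        subst hz
        rfl
      · rfl

theorem lookTM_iterate (T : ℕ) (D : List Sym → Bool) (w : List Sym) (j : ℕ) (h : j ≤ T)
    (hw : j ≤ w.length) : (lookTM T D).next^[j] ((lookTM T D).init w) = lookCfg T D w j h := by
  induction j with
  | zero => rfl
  | succ j ih =>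
    rw [Function.iterate_succ_apply', ih (by omega) (by omega)]
    exact (lookTM_next T D w j (by omega) (by omega)).2

theorem lookTM_halts (T : ℕ) (D : List Sym → Bool) (w : List Sym) :
    turing.Halts (lookTM T D) w (D (w.take T)) (min T w.length) := by
  constructor
  · rw [lookTM_iterate T D w (min T w.length) (min_le_left _ _) (min_le_right _ _)]
    have htake : w.take (min T w.length) = w.take T := by
      rcases le_total T w.length with h | h
      · rw [min_eq_left h]
      · rw [min_eq_right h, List.take_of_length_le h, List.take_of_length_le le_rfl]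
    have hδ : (lookTM T D).δ (lookCfg T D w (min T w.length) (min_le_left _ _)).q
        (lookCfg T D w (min T w.length) (min_le_left _ _)).scan = .inl (D (w.take T)) := by
      have hs : (lookCfg T D w (min T w.length) (min_le_left _ _)).scan (0 : Fin 1) =
        w[min T w.length]? := lookCfg_scan T D w (min T w.length) (min_le_left _ _) 0
      simp only [lookTM] at hs ⊢
      rw [hs]
      simp only [lookCfg]
      rcases lt_or_ge (min T w.length) w.length with h | h
      · rw [List.getElem?_eq_getElem h]
        have hT : min T w.length = T := by omega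
        have : ¬ (w.take (min T w.length)).length < T := by
          rw [List.length_take]
          omega
        refine (dif_neg this).trans ?_
        rw [htake]
      · rw [List.getElem?_eq_none h]
        simp only [htake]
    unfold TM.answer
    rw [hδ]
  · intro s hs
    rw [lookTM_iterate T D w s (by omega) (by omega)]
    exact (lookTM_next T D w s (by omega) (by omega)).1

/-- If `L` has at most one isomorphism type for all large sizes, then some isomorphism test for `L`
uses a bounded number of steps. -/
theorem bounded_test {L : FOClass} (hL : ∀ᶠ n in atTop, L.types n ≤ 1) :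
    ∃ γ : TM, IsTest turing L γ ∧ ∃ T, ∀ n, maxSteps turing L γ n ≤ T := by
  classical
  obtain ⟨N, hN⟩ := eventually_atTop.1 hL
  have hbd : ∃ T, ∀ n < N, ∀ A B : Str L.sig n, (pairCode A B).length < T := by
    have h1 : ∀ n, ∃ T, ∀ A B : Str L.sig n, (pairCode A B).length < T := by
      intro n
      have := finite_str L.sig n
      obtain ⟨T, hT⟩ := (Set.finite_range fun p : Str L.sig n × Str L.sig n =>
        (pairCode p.1 p.2).length).bddAbove
      exact ⟨T + 1, fun A B => Nat.lt_succ_of_le (hT ⟨(A, B), rfl⟩)⟩
    choose T hT using h1
    refine ⟨∑ n ∈ Finset.range N, T n, fun n hn A B => (hT n A B).trans_le ?_⟩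
    exact Finset.single_le_sum (f := T) (fun _ _ => Nat.zero_le _) (Finset.mem_range.2 hn)
  obtain ⟨T, hT⟩ := hbd
  let D : List Sym → Bool := fun w => decide (∀ n < N, ∀ A B : Str L.sig n,
    pairCode A B = w → Iso A B)
  have key : ∀ (n : ℕ) (A B : Str L.sig n), L.Mem A → L.Mem B →
      (D ((pairCode A B).take T) = true ↔ Iso A B) := by
    intro n A B hA hB
    simp only [D, decide_eq_true_iff]
    rcases lt_or_ge n N with h | h
    · rw [List.take_of_length_le (hT n h A B).le]
      constructor
      · intro h1
        exact h1 n h A B rfl
      · intro h1 n' _ A' B' he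
        exact (pairCode_inj he).2 h1
    · refine ⟨fun _ => iso_of_types_le (hN n h) hA hB, ?_⟩
      intro _ n' hn' A' B' he
      have h1 := hT n' hn' A' B'
      have h2 : (pairCode A' B').length ≤ T := h1.le
      have h3 : pairCode A' B' = pairCode A B := by
        rw [he]
        refine List.take_of_length_le ?_
        by_contra hlt
        push Not at hlt
        rw [he, List.length_take, min_eq_left hlt.le] at h1
        exact absurd h1 (lt_irrefl _)
      exact (pairCode_inj h3).2 (iso_of_types_le (hN n h) hA hB)
  refine ⟨lookTM T D, fun n A B hA hB => ⟨_, _, lookTM_halts T D _, key n A B hA hB⟩, T, ?_⟩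
  intro n
  refine csSup_le' ?_
  rintro t ⟨A, B, _, _, b, h⟩
  rw [(turing.det _ _ _ _ _ _ h (lookTM_halts T D _)).2]
  exact min_le_left _ _

end Pool.Agent.H82.TC
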