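import Pool.Agent.H82.TC.Defs

set_option autoImplicit false

namespace Pool.Agent.H82.TC

open Filter

/-! ### Running times are bounded -/

/-- There are finitely many structures on an `n`-element universe. -/
theorem finite_str (s : Sig) (n : ℕ) : Finite (Str s n) := by
  let F : Str s n →
      ((i : Fin s.fn.length) → (Fin (s.fn.get i) → Fin n) → Fin n) ×
      ((i : Fin s.rel.length) → (Fin (s.rel.get i) → Fin n) → Prop) := fun A =>
    (fun i x => A.funMap (⟨i, rfl⟩ : s.lang.Functions (s.fn.get i)) x,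
     fun i x => A.RelMap (⟨i, rfl⟩ : s.lang.Relations (s.rel.get i)) x)
  refine Finite.of_injective F ?_
  intro A B h
  have h1 := congrArg Prod.fst h
  have h2 := congrArg Prod.snd h
  ext k f x
  · obtain ⟨i, rfl⟩ := f
    have := congrFun (congrFun h1 i) x
    exact congrArg Fin.val this
  · obtain ⟨i, rfl⟩ := f
    have := congrFun (congrFun h2 i) x
    exact iff_of_eq this

/-- The set of running times in the definition of `maxSteps` is finite, hence bounded. -/
theorem bddAbove_steps (M : Model) (L : FOClass) (γ : M.Alg) (n : ℕ) :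
    BddAbove {t | ∃ A B : Str L.sig n, L.Mem A ∧ L.Mem B ∧ ∃ b, M.Halts γ (pairCode A B) b t} := by
  have := finite_str L.sig n
  have hfin : Set.Finite {t | ∃ A B : Str L.sig n, L.Mem A ∧ L.Mem B ∧
      ∃ b, M.Halts γ (pairCode A B) b t} := by
    have hsub : {t | ∃ A B : Str L.sig n, L.Mem A ∧ L.Mem B ∧
        ∃ b, M.Halts γ (pairCode A B) b t} ⊆
        ⋃ A : Str L.sig n, ⋃ B : Str L.sig n, {t | ∃ b, M.Halts γ (pairCode A B) b t} := by
      rintro t ⟨A, B, -, -, hb⟩
      exact Set.mem_iUnion.2 ⟨A, Set.mem_iUnion.2 ⟨B, hb⟩⟩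
    refine Set.Finite.subset ?_ hsub
    refine Set.finite_iUnion fun A => Set.finite_iUnion fun B => ?_
    refine Set.Subsingleton.finite ?_
    rintro t ⟨b, h⟩ t' ⟨b', h'⟩
    exact (M.det _ _ _ _ _ _ h h').2
  exact hfin.bddAbove

/-- `maxSteps` bounds the number of steps on each pair of `n`-element members. -/
theorem le_maxSteps (M : Model) (L : FOClass) (γ : M.Alg) (n : ℕ) (A B : Str L.sig n)
    (hA : L.Mem A) (hB : L.Mem B) (b : Bool) (t : ℕ) (h : M.Halts γ (pairCode A B) b t) :
    t ≤ maxSteps M L γ n :=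
  le_csSup (bddAbove_steps M L γ n) ⟨A, B, hA, hB, b, h⟩



/-- Two configurations agree, up to cells with index larger than `T`, and the heads have index at
most `j`. -/
def Sim (M : TM) (T j : ℕ) (c c' : M.Cfg) : Prop :=
  c.q = c'.q ∧ c.head = c'.head ∧ (∀ i, c.head i ≤ j) ∧
    ∀ i (z : ℤ), z ≤ T → c.tape i z = c'.tape i z

theorem Sim.scan {M : TM} {T j : ℕ} (hj : j ≤ T) {c c' : M.Cfg} (h : Sim M T j c c') :
    c.scan = c'.scan := by
  obtain ⟨_, h2, h3, h4⟩ := h
  funext i
  unfold TM.Cfg.scan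
  rw [← h2]
  apply h4
  have := h3 i
  omega

theorem Sim.answer {M : TM} {T j : ℕ} (hj : j ≤ T) {c c' : M.Cfg} (h : Sim M T j c c') :
    M.answer c = M.answer c' := by
  unfold TM.answer
  rw [h.scan hj, h.1]

theorem Sim.next {M : TM} {T j : ℕ} (hj : j ≤ T) {c c' : M.Cfg} (h : Sim M T j c c') :
    Sim M T (j + 1) (M.next c) (M.next c') := by
  have hs := h.scan hj
  obtain ⟨h1, h2, h3, h4⟩ := h
  unfold TM.next
  rw [hs, h1]
  cases M.δ c'.q c'.scan with
  | inl b =>
    refine ⟨h1, h2, fun i => (h3 i).trans (by push_cast; omega), h4⟩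
  | inr r =>
    refine ⟨rfl, ?_, ?_, ?_⟩
    · simp only [h2]
    · intro i
      have hi := h3 i
      have hd : (r.2.2 i).shift ≤ 1 := by
        cases r.2.2 i <;> simp [Dir.shift]
      simp only
      push_cast
      omega
    · intro i z hz
      simp only [h2, h4 i z hz]

theorem Sim.iterate {M : TM} {T : ℕ} {c c' : M.Cfg} (h : Sim M T 0 c c') (j : ℕ) (hj : j ≤ T) :
    Sim M T j (M.next^[j] c) (M.next^[j] c') := by
  induction j with
  | zero => exact h
  | succ j ih =>
    rw [Function.iterate_succ_apply', Function.iterate_succ_apply']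
    exact (ih (by omega)).next (by omega)

/-- A machine which halts after `t` steps has only seen the input cells `0, ..., t`. -/
theorem halts_congr (γ : TM) {w w' : List Sym} {b : Bool} {t : ℕ} (h : turing.Halts γ w b t)
    (hag : ∀ i ≤ t, w'[i]? = w[i]?) : turing.Halts γ w' b t := by
  have hsim : Sim γ t 0 (γ.init w) (γ.init w') := by
    refine ⟨rfl, rfl, fun i => le_refl _, ?_⟩
    intro i z hz
    unfold TM.init
    simp only
    by_cases hcond : i = 0 ∧ 0 ≤ z
    · rw [if_pos hcond, if_pos hcond, hag z.toNat (by omega)]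
    · rw [if_neg hcond, if_neg hcond]
  refine ⟨?_, ?_⟩
  · rw [← (hsim.iterate t le_rfl).answer le_rfl]
    exact h.1
  · intro s hs
    rw [← (hsim.iterate s (by omega)).answer (by omega)]
    exact h.2 s hs

/-! ### The number of types and the members -/

theorem types_ne_zero {L : FOClass} {n : ℕ} (h : L.types n ≠ 0) : ∃ A : Str L.sig n, L.Mem A := by
  unfold FOClass.types at h
  obtain ⟨⟨q⟩, _⟩ := Nat.card_ne_zero.1 h
  exact ⟨q.out.1, q.out.2⟩

theorem finite_types (L : FOClass) (n : ℕ) : Finite (Quotient (L.isoSetoid n)) := by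
  have := finite_str L.sig n
  infer_instance

theorem types_ne_zero_of {L : FOClass} {n : ℕ} {A : Str L.sig n} (h : L.Mem A) :
    L.types n ≠ 0 := by
  have := finite_types L n
  unfold FOClass.types
  rw [Nat.card_ne_zero]
  exact ⟨⟨Quotient.mk _ ⟨A, h⟩⟩, this⟩

theorem two_le_types {L : FOClass} {n : ℕ} (h : 2 ≤ L.types n) :
    ∃ A B : Str L.sig n, L.Mem A ∧ L.Mem B ∧ ¬ Iso A B := by
  have := finite_types L n
  unfold FOClass.types at h
  obtain ⟨q, q', hne⟩ := (Finite.one_lt_card_iff_nontrivial.1 h)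
  refine ⟨q.out.1, q'.out.1, q.out.2, q'.out.2, fun hiso => hne ?_⟩
  rw [← Quotient.out_eq q, ← Quotient.out_eq q']
  exact Quotient.sound hiso

theorem iso_of_types_le {L : FOClass} {n : ℕ} (h : L.types n ≤ 1) {A B : Str L.sig n}
    (hA : L.Mem A) (hB : L.Mem B) : Iso A B := by
  have := finite_types L n
  unfold FOClass.types at h
  have := Finite.card_le_one_iff_subsingleton.1 h
  have h1 : (Quotient.mk (L.isoSetoid n) ⟨A, hA⟩) = Quotient.mk (L.isoSetoid n) ⟨B, hB⟩ :=
    Subsingleton.elim _ _
  exact Quotient.exact h1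

theorem maxSteps_eq_zero {M : Model} {L : FOClass} {γ : M.Alg} {n : ℕ} (h : L.types n = 0) :
    maxSteps M L γ n = 0 := by
  unfold maxSteps
  have : {t | ∃ A B : Str L.sig n, L.Mem A ∧ L.Mem B ∧ ∃ b, M.Halts γ (pairCode A B) b t} = ∅ := by
    ext t
    simp only [Set.mem_ofPred_eq, Set.mem_empty_iff_false, iff_false]
    rintro ⟨A, _, hA, _⟩
    exact types_ne_zero_of hA h
  rw [this]
  exact csSup_empty

/-! ### The lower bound -/

theorem getElem?_pairCode_lt {s : Sig} {n : ℕ} (A B : Str s n) {i : ℕ} (hi : i < n) :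
    (pairCode A B)[i]? = some Sym.one := by
  unfold pairCode code
  rw [List.append_assoc, List.append_assoc, List.append_assoc,
    List.getElem?_append_left (by simpa using hi), List.getElem?_replicate, if_pos hi]

/-- If `L` has two isomorphism types for infinitely many sizes, then every isomorphism test for `L`
needs at least `n` steps for every size `n` for which `L` has a member. -/
theorem lower {L : FOClass} {γ : TM} (hγ : IsTest turing L γ)
    (hinf : ∃ᶠ n in atTop, 2 ≤ L.types n) {n : ℕ} (hn : L.types n ≠ 0) :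
    n ≤ maxSteps turing L γ n := by
  by_contra hcon
  push Not at hcon
  obtain ⟨A, hA⟩ := types_ne_zero hn
  obtain ⟨b, t, hbt, hb⟩ := hγ n A A hA hA
  have hbtrue : b = true := hb.2 (Iso.refl A)
  subst hbtrue
  have ht : t ≤ maxSteps turing L γ n := le_maxSteps turing L γ n A A hA hA _ _ hbt
  obtain ⟨n', h2, hn'⟩ := (hinf.and_eventually (eventually_ge_atTop n)).exists
  obtain ⟨A', B', hA', hB', hne⟩ := two_le_types h2
  have h1 := halts_congr γ (w' := pairCode A' B') hbt fun i hi => by
    rw [getElem?_pairCode_lt A' B' (by omega), getElem?_pairCode_lt A A (by omega)]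
  obtain ⟨b'', t'', hbt'', hb''⟩ := hγ n' A' B' hA' hB'
  have hbb := (turing.det _ _ _ _ _ _ h1 hbt'').1
  exact hne (hb''.1 hbb.symm)

end Pool.Agent.H82.TC
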