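import Pool.Agent.H82.TC.Main

set_option autoImplicit false

namespace Pool.Agent.H82.TC

open Filter

/-! ### Paths of a transition system -/

/-- `Path answer next c c' t`: the system goes from `c` to `c'` in `t` steps without halting. -/
inductive Path {C : Type} (answer : C → Option Bool) (next : C → C) : C → C → ℕ → Prop
  | refl (c : C) : Path answer next c c 0
  | step (c c' : C) (t : ℕ) (h : answer c = none) (h' : Path answer next (next c) c' t) :
      Path answer next c c' (t + 1)

section

variable {C : Type} {answer : C → Option Bool} {next : C → C}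

theorem Path.trans {c c' c'' : C} {t t' : ℕ} (h : Path answer next c c' t)
    (h' : Path answer next c' c'' t') : Path answer next c c'' (t + t') := by
  induction h with
  | refl c => simpa using h'
  | step c c₁ t h _ ih =>
    have := Path.step c c'' (t + t') h (ih h')
    rwa [show t + 1 + t' = t + t' + 1 by omega]

theorem Path.one {c : C} (h : answer c = none) : Path answer next c (next c) 1 :=
  Path.step c _ 0 h (Path.refl _)

theorem Path.halts {c c' : C} {t t' : ℕ} {b : Bool} (h : Path answer next c c' t)
    (h' : HaltsWith answer next c' b t') : HaltsWith answer next c b (t + t') := by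
  induction h with
  | refl c => simpa using h'
  | step c c₁ t h _ ih =>
    obtain ⟨h1, h2⟩ := ih h'
    rw [show t + 1 + t' = t + t' + 1 by omega]
    refine ⟨by rw [Function.iterate_succ_apply]; exact h1, ?_⟩
    intro s hs
    cases s with
    | zero => exact h
    | succ s =>
      rw [Function.iterate_succ_apply]
      exact h2 s (by omega)

theorem haltsWith_zero {c : C} {b : Bool} (h : answer c = some b) :
    HaltsWith answer next c b 0 := ⟨h, fun s hs => absurd hs (Nat.not_lt_zero s)⟩

end

/-! ### Machines with several heads on the input, used as counters -/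

/-- A test of a register: it may depend on whether the register is `0` and on the input cell whose
index is in the register. -/
abbrev Test : Type := Bool → Option Sym → Bool

/-- Instructions of a multihead machine. -/
inductive Ins
  | inc (i : ℕ)
  | dec (i : ℕ)
  | br (i : ℕ) (g : Test) (l : ℕ)
  | halt (b : Bool)

/-- Configurations: the instruction counter and the registers (the positions of the heads). -/
structure MC where
  pc : ℕ
  R : ℕ → ℕ

def mstep (P : List Ins) (w : List Sym) (c : MC) : MC :=
  match P[c.pc]? with
  | some (.inc i) => ⟨c.pc + 1, Function.update c.R i (c.R i + 1)⟩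
  | some (.dec i) => ⟨c.pc + 1, Function.update c.R i (c.R i - 1)⟩
  | some (.br i g l) => ⟨if g (decide (c.R i = 0)) w[c.R i]? = true then l else c.pc + 1, c.R⟩
  | some (.halt _) => c
  | none => c

def manswer (P : List Ins) (c : MC) : Option Bool :=
  match P[c.pc]? with
  | some (.inc _) => none
  | some (.dec _) => none
  | some (.br _ _ _) => none
  | some (.halt b) => some b
  | none => some false

/-! ### The Turing machine of a multihead program -/

/-- The register used by an instruction. -/
def Ins.reg : Ins → ℕ
  | .inc i => i
  | .dec i => i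
  | .br i _ _ => i
  | .halt _ => 0

/-- The tape symbols: a letter or blank, and a mark for the cell `0`. -/
abbrev TG : Type := Option Sym × Bool

/-- The scanned symbol of tape `i`. -/
def getG {k : ℕ} (s : Fin (k + 1) → TG) (i : ℕ) : TG :=
  if h : i < k + 1 then s ⟨i, h⟩ else (none, true)

/-- The Turing machine: it first copies the input to all tapes, marks the cells `0`, moves the heads
back and then simulates the program, the position of head `i` being the content of register `i`. -/
def toTM (P : List Ins) (k : ℕ) : TM where
  k := k
  Γ := TG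
  finΓ := by
    have := finite_sym
    infer_instance
  Q := Fin 3 ⊕ Fin (P.length + 1)
  finQ := inferInstance
  letter := ⟨fun x => (x, false), fun x y h => congrArg Prod.fst h⟩
  start := .inl 0
  δ := fun q s =>
    match q with
    | .inl 0 => .inr (.inl 1, fun _ => ((s 0).1, true), fun _ => Dir.right)
    | .inl 1 =>
      match (s 0).1 with
      | none => .inr (.inl 2, s, fun _ => Dir.left)
      | some x => .inr (.inl 1, fun _ => (some x, false), fun _ => Dir.right)
    | .inl 2 =>
      if (s 0).2 = true then .inr (.inr 0, s, fun _ => Dir.stay)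
      else .inr (.inl 2, s, fun _ => Dir.left)
    | .inr pc =>
      match P[pc.val]? with
      | none => .inl false
      | some (.halt b) => .inl b
      | some (.inc i) => .inr (.inr ⟨min (pc.val + 1) P.length, by omega⟩, s,
          fun j => if j.val = i then Dir.right else Dir.stay)
      | some (.dec i) => .inr (.inr ⟨min (pc.val + 1) P.length, by omega⟩, s,
          fun j => if j.val = i ∧ (s j).2 = false then Dir.left else Dir.stay)
      | some (.br i g l) => .inr (.inr ⟨min (if g (getG s i).2 (getG s i).1 = true then l
          else pc.val + 1) P.length, by omega⟩, s, fun _ => Dir.stay)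

section

variable (P : List Ins) (k : ℕ) (w : List Sym)

/-- The input on the tape. -/
def inp (w : List Sym) (z : ℤ) : Option Sym := if 0 ≤ z then w[z.toNat]? else none

theorem inp_natCast (w : List Sym) (m : ℕ) : inp w (m : ℤ) = w[m]? := by
  unfold inp
  rw [if_pos (by omega)]
  rfl

/-- Configurations in the simulation phase. -/
def conf (c : MC) : (toTM P k).Cfg where
  q := .inr ⟨min c.pc P.length, by omega⟩
  head := fun i => (c.R i.val : ℤ)
  tape := fun _ z => (inp w z, decide (z = 0))

/-- Configurations in the copying phase. -/
def conf1 (j : ℕ) : (toTM P k).Cfg where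
  q := .inl 1
  head := fun _ => (j : ℤ)
  tape := fun i z => (if i = 0 ∨ z < j then inp w z else none, decide (z = 0))

/-- Configurations while the heads move back. -/
def conf2 (j : ℕ) : (toTM P k).Cfg where
  q := .inl 2
  head := fun _ => (j : ℤ)
  tape := fun _ z => (inp w z, decide (z = 0))

theorem getElem?_min (m : ℕ) : P[min m P.length]? = P[m]? := by
  rcases le_total m P.length with h | h
  · rw [min_eq_left h]
  · rw [min_eq_right h, List.getElem?_eq_none h, List.getElem?_eq_none le_rfl]

theorem conf_scan (c : MC) (i : ℕ) (hi : i ≤ k) :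
    getG (conf P k w c).scan i = (w[c.R i]?, decide (c.R i = 0)) := by
  unfold getG
  have hi' : i < (toTM P k).k + 1 := Nat.lt_succ_of_le hi
  rw [dif_pos hi']
  unfold TM.Cfg.scan conf
  simp only [inp_natCast, Nat.cast_eq_zero]

theorem answer_conf (c : MC) : (toTM P k).answer (conf P k w c) = manswer P c := by
  unfold TM.answer manswer
  have h := getElem?_min P c.pc
  simp only [toTM, conf]
  rw [h]
  cases P[c.pc]? with
  | none => rfl
  | some I => cases I <;> rfl

theorem next_keep {M : TM} {c : M.Cfg} {q' : M.Q} {mv : Fin (M.k + 1) → Dir}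
    (h : M.δ c.q c.scan = .inr (q', c.scan, mv)) :
    M.next c = ⟨q', fun i => c.head i + (mv i).shift, c.tape⟩ := by
  unfold TM.next
  rw [h]
  simp only [TM.Cfg.mk.injEq, true_and]
  funext i z
  split_ifs with hz
  · rw [hz]
    rfl
  · rfl

theorem answer_none {M : TM} {c : M.Cfg} {r : M.Q × (Fin (M.k + 1) → M.Γ) × (Fin (M.k + 1) → Dir)}
    (h : M.δ c.q c.scan = .inr r) : M.answer c = none := by
  unfold TM.answer
  rw [h]

theorem next_conf (hreg : ∀ I ∈ P, I.reg ≤ k) (c : MC) (h : manswer P c = none) :
    (toTM P k).next (conf P k w c) = conf P k w (mstep P w c) := by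
  have hmin := getElem?_min P c.pc
  have hlt : c.pc < P.length := by
    by_contra hge
    unfold manswer at h
    rw [List.getElem?_eq_none (by omega)] at h
    exact absurd h (by simp)
  have hI : P[c.pc]? = some P[c.pc] := List.getElem?_eq_getElem hlt
  obtain ⟨I, hIe⟩ : ∃ I, I = P[c.pc] := ⟨_, rfl⟩
  have hmem : I ∈ P := by rw [hIe]; exact List.getElem_mem hlt
  rw [← hIe] at hI
  have hr := hreg I hmem
  unfold manswer at h
  rw [hI] at h
  have hst : ∀ (q' : (toTM P k).Q) (mv : Fin (k + 1) → Dir),
      (toTM P k).δ (conf P k w c).q (conf P k w c).scan = .inr (q', (conf P k w c).scan, mv) →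
      (toTM P k).next (conf P k w c) =
        ⟨q', fun i => (conf P k w c).head i + (mv i).shift, (conf P k w c).tape⟩ :=
    fun q' mv hδ => next_keep hδ
  have hmin1 : min c.pc P.length = c.pc := min_eq_left hlt.le
  cases I with
  | inc i =>
    rw [hst (.inr ⟨min (min c.pc P.length + 1) P.length, by omega⟩)
      (fun j => if j.val = i then Dir.right else Dir.stay) (by
        simp only [toTM, conf, hmin, hI])]
    unfold mstep
    rw [hI]
    unfold conf
    simp only [hmin1, TM.Cfg.mk.injEq, and_true, true_and]
    funext j
    by_cases hj : j.val = i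
    · rw [if_pos hj, ← hj, Function.update_self]
      simp [Dir.shift]
    · rw [if_neg hj, Function.update_of_ne hj]
      simp [Dir.shift]
  | dec i =>
    rw [hst (.inr ⟨min (min c.pc P.length + 1) P.length, by omega⟩)
      (fun j => if j.val = i ∧ ((conf P k w c).scan j).2 = false then Dir.left else Dir.stay) (by
        simp only [toTM, conf, hmin, hI]
        rfl)]
    unfold mstep
    rw [hI]
    have hs : ∀ j : Fin (k + 1), ((conf P k w c).scan j).2 = decide (c.R j.val = 0) := by
      intro j
      unfold TM.Cfg.scan conf
      simp only [Nat.cast_eq_zero]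
    simp only [hs]
    unfold conf
    simp only [hmin1, TM.Cfg.mk.injEq, and_true, true_and]
    funext j
    by_cases hj : j.val = i
    · rw [← hj, Function.update_self]
      by_cases h0 : c.R j.val = 0
      · simp [h0, Dir.shift]
      · simp only [h0, decide_false, and_self, if_true, Dir.shift]
        omega
    · rw [Function.update_of_ne hj]
      simp [hj, Dir.shift]
  | br i g l =>
    have hg := conf_scan P k w c i hr
    rw [hst (.inr ⟨min (if g (getG (conf P k w c).scan i).2 (getG (conf P k w c).scan i).1 = true
      then l else min c.pc P.length + 1) P.length, by omega⟩) (fun _ => Dir.stay) (by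
        simp only [toTM, conf, hmin, hI]
        rfl)]
    simp only [hg]
    unfold mstep
    rw [hI]
    unfold conf
    simp only [hmin1, Dir.shift, add_zero]
  | halt b => exact absurd h (by simp)

theorem path_conf (hreg : ∀ I ∈ P, I.reg ≤ k) {c c' : MC} {t : ℕ}
    (h : Path (manswer P) (mstep P w) c c' t) :
    Path (toTM P k).answer (toTM P k).next (conf P k w c) (conf P k w c') t := by
  induction h with
  | refl c => exact Path.refl _
  | step c c' t h _ ih =>
    refine Path.step _ _ _ (by rw [answer_conf, h]) ?_
    rw [next_conf P k w hreg c h]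
    exact ih

/-! ### The copying phase -/

theorem inp_nil_of_le {j : ℕ} (h : w.length ≤ j) {z : ℤ} (hz : (j : ℤ) ≤ z) : inp w z = none := by
  unfold inp
  rw [if_pos (by omega), List.getElem?_eq_none (by omega)]

theorem init_tape (i : Fin ((toTM P k).k + 1)) (z : ℤ) :
    ((toTM P k).init w).tape i z = ((if i = 0 then inp w z else none, false) : TG) := by
  have hl : ∀ x, (toTM P k).letter x = ((x, false) : TG) := fun x => rfl
  show (if i = 0 ∧ 0 ≤ z then (toTM P k).letter w[z.toNat]? else (toTM P k).letter none) = _
  rw [hl, hl]
  unfold inp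
  by_cases hi : i = 0 <;> by_cases hz : 0 ≤ z <;> simp [hi, hz]

theorem start_conf : (toTM P k).answer ((toTM P k).init w) = none ∧
    (toTM P k).next ((toTM P k).init w) = conf1 P k w 1 := by
  have hδ : (toTM P k).δ ((toTM P k).init w).q ((toTM P k).init w).scan =
      .inr (.inl 1, fun _ => (w[0]?, true), fun _ => Dir.right) := by
    have hs' : (((toTM P k).init w).scan (0 : Fin (k + 1))).1 = w[0]? := by
      have := init_tape P k w 0 0
      unfold TM.Cfg.scan
      show (((toTM P k).init w).tape 0 0).1 = _
      rw [this]
      simp [inp]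
    rw [← hs']
    rfl
  refine ⟨answer_none hδ, ?_⟩
  unfold TM.next
  rw [hδ]
  unfold conf1
  simp only [TM.Cfg.mk.injEq, true_and]
  refine ⟨?_, ?_⟩
  · funext i
    simp [TM.init, Dir.shift]
  · funext i z
    rw [init_tape]
    have h0 : ((toTM P k).init w).head i = 0 := rfl
    rw [h0]
    by_cases hz : z = 0
    · subst hz
      simp [inp]
    · rw [if_neg hz]
      by_cases hi : i = 0
      · simp [hi, hz]
      · by_cases h1 : z < 1
        · have : inp w z = none := by
            unfold inp
            rw [if_neg (by omega)]
          simp [hz, this]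
        · have h2 : ¬ (z < ((1 : ℕ) : ℤ)) := by simpa using h1
          simp [hi, hz, h1]

theorem copy_conf {j : ℕ} (hj : j < w.length) (h1 : 1 ≤ j) :
    (toTM P k).answer (conf1 P k w j) = none ∧
    (toTM P k).next (conf1 P k w j) = conf1 P k w (j + 1) := by
  have hδ : (toTM P k).δ (conf1 P k w j).q (conf1 P k w j).scan =
      .inr (.inl 1, fun _ => (some w[j], false), fun _ => Dir.right) := by
    have hs' : ((conf1 P k w j).scan (0 : Fin (k + 1))).1 = some w[j] := by
      show (if (0 : Fin (k + 1)) = 0 ∨ (j : ℤ) < j then inp w j else none) = _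
      rw [if_pos (Or.inl rfl), inp_natCast, List.getElem?_eq_getElem hj]
    show (match ((conf1 P k w j).scan (0 : Fin (k + 1))).1 with
      | none => _
      | some x => _) = _
    rw [hs']
    rfl
  refine ⟨answer_none hδ, ?_⟩
  unfold TM.next
  rw [hδ]
  unfold conf1
  simp only [TM.Cfg.mk.injEq, true_and]
  refine ⟨?_, ?_⟩
  · funext i
    simp [Dir.shift]
  · funext i z
    by_cases hz : z = j
    · subst hz
      have h2 : ((j : ℤ) < ((j + 1 : ℕ) : ℤ)) := by push_cast; omega
      have h3 : ¬ (j = 0) := by omega
      simp [inp_natCast, List.getElem?_eq_getElem hj, h3]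
    · have : z < ((j + 1 : ℕ) : ℤ) ↔ z < j := by push_cast; omega
      simp only [hz, if_false, this]

theorem turn_conf {j : ℕ} (hj : w.length ≤ j) (h1 : 1 ≤ j) :
    (toTM P k).answer (conf1 P k w j) = none ∧
    (toTM P k).next (conf1 P k w j) = conf2 P k w (j - 1) := by
  have hδ : (toTM P k).δ (conf1 P k w j).q (conf1 P k w j).scan =
      .inr (.inl 2, (conf1 P k w j).scan, fun _ => Dir.left) := by
    have hs' : ((conf1 P k w j).scan (0 : Fin (k + 1))).1 = none := by
      show (if (0 : Fin (k + 1)) = 0 ∨ (j : ℤ) < j then inp w j else none) = _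
      rw [if_pos (Or.inl rfl), inp_natCast, List.getElem?_eq_none hj]
    show (match ((conf1 P k w j).scan (0 : Fin (k + 1))).1 with
      | none => _
      | some x => _) = _
    rw [hs']
    rfl
  refine ⟨answer_none hδ, ?_⟩
  rw [next_keep hδ]
  unfold conf1 conf2
  simp only [TM.Cfg.mk.injEq, true_and]
  refine ⟨?_, ?_⟩
  · funext i
    simp only [Dir.shift]
    omega
  · funext i z
    by_cases hz : z < j
    · simp [hz]
    · have := inp_nil_of_le w hj (z := z) (by omega)
      simp [this]

theorem back_conf {j : ℕ} (h1 : 1 ≤ j) :
    (toTM P k).answer (conf2 P k w j) = none ∧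
    (toTM P k).next (conf2 P k w j) = conf2 P k w (j - 1) := by
  have hs : ((conf2 P k w j).scan (0 : Fin (k + 1))).2 = false := by
    unfold TM.Cfg.scan conf2
    simp
    omega
  have hδ : (toTM P k).δ (conf2 P k w j).q (conf2 P k w j).scan =
      .inr (.inl 2, (conf2 P k w j).scan, fun _ => Dir.left) := by
    show (if ((conf2 P k w j).scan (0 : Fin (k + 1))).2 = true then _ else _) = _
    rw [hs]
    rfl
  refine ⟨answer_none hδ, ?_⟩
  rw [next_keep hδ]
  unfold conf2
  simp only [TM.Cfg.mk.injEq, true_and, and_true]
  funext i
  simp only [Dir.shift]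
  omega

theorem delta_two (s : Fin ((toTM P k).k + 1) → (toTM P k).Γ) : (toTM P k).δ (.inl 2) s =
    if (s (0 : Fin (k + 1))).2 = true then .inr (.inr 0, s, fun _ => Dir.stay)
    else .inr (.inl 2, s, fun _ => Dir.left) := rfl

theorem run_conf : (toTM P k).answer (conf2 P k w 0) = none ∧
    (toTM P k).next (conf2 P k w 0) = conf P k w ⟨0, fun _ => 0⟩ := by
  have hs : ((conf2 P k w 0).scan (0 : Fin (k + 1))).2 = true := by
    unfold TM.Cfg.scan conf2
    simp
  have hδ : (toTM P k).δ (conf2 P k w 0).q (conf2 P k w 0).scan =
      .inr (.inr 0, (conf2 P k w 0).scan, fun _ => Dir.stay) :=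
    (delta_two P k _).trans (if_pos hs)
  refine ⟨answer_none hδ, ?_⟩
  rw [next_keep hδ]
  unfold conf2 conf
  simp only [TM.Cfg.mk.injEq, and_true]
  refine ⟨?_, ?_⟩
  · congr 1
  · funext i
    simp [Dir.shift]

/-- The whole preparation takes `2 max (|w|, 1) + 1` steps. -/
theorem prep_path : Path (toTM P k).answer (toTM P k).next ((toTM P k).init w)
    (conf P k w ⟨0, fun _ => 0⟩) (2 * max w.length 1 + 1) := by
  obtain ⟨m, hm⟩ : ∃ m, m = max w.length 1 := ⟨_, rfl⟩
  have hfwd : ∀ j, 1 ≤ j → j ≤ m → Path (toTM P k).answer (toTM P k).next (conf1 P k w 1)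
      (conf1 P k w j) (j - 1) := by
    intro j h1 h2
    induction j with
    | zero => omega
    | succ j ih =>
      rcases Nat.eq_zero_or_pos j with h0 | h0
      · subst h0
        exact Path.refl _
      · have h3 := copy_conf P k w (j := j) (by omega) h0
        have h4 := (ih h0 (by omega)).trans (Path.one h3.1)
        rw [h3.2] at h4
        rwa [show j + 1 - 1 = j - 1 + 1 by omega]
  have hbwd : ∀ j, Path (toTM P k).answer (toTM P k).next (conf2 P k w j)
      (conf2 P k w 0) j := by
    intro j
    induction j with
    | zero => exact Path.refl _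
    | succ j ih =>
      have h3 := back_conf P k w (j := j + 1) (by omega)
      refine Path.step _ _ _ h3.1 ?_
      rw [h3.2]
      exact ih
  have h1 := start_conf P k w
  have h2 := turn_conf P k w (j := m) (by omega) (by omega)
  have h3 := run_conf P k w
  have p1 := Path.one (next := (toTM P k).next) h1.1
  rw [h1.2] at p1
  have p2 := Path.one (next := (toTM P k).next) h2.1
  rw [h2.2] at p2
  have p3 := Path.one (next := (toTM P k).next) h3.1
  rw [h3.2] at p3
  have := (((p1.trans (hfwd m (by omega) le_rfl)).trans p2).trans (hbwd (m - 1))).trans p3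
  rw [← hm]
  rwa [show 2 * m + 1 = 1 + (m - 1) + 1 + (m - 1) + 1 by omega]

/-- The Turing machine of a multihead program gives the same answer. -/
theorem toTM_halts (hreg : ∀ I ∈ P, I.reg ≤ k) {c : MC} {t : ℕ} {b : Bool}
    (h : Path (manswer P) (mstep P w) ⟨0, fun _ => 0⟩ c t) (hb : manswer P c = some b) :
    turing.Halts (toTM P k) w b (2 * max w.length 1 + 1 + t) := by
  have h1 := (prep_path P k w).trans (path_conf P k w hreg h)
  have h2 := h1.halts (haltsWith_zero (next := (toTM P k).next)
    (by rw [answer_conf, hb] : (toTM P k).answer (conf P k w c) = some b))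
  exact h2

end

end Pool.Agent.H82.TC
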