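import Pool.Agent.H82.TC.Cmd

set_option autoImplicit false

namespace Pool.Agent.H82.TC

open Filter

/-! ### Correctness statements with time bounds -/

/-- From the registers `R` the program `c` leads to registers with the property `Q` in at most `T`
steps. -/
def Tri (w : List Sym) (c : Cmd) (R : ℕ → ℕ) (Q : (ℕ → ℕ) → Prop) (T : ℕ) : Prop :=
  ∃ R' t, Ev w c R R' t ∧ t ≤ T ∧ Q R'

section

variable {w : List Sym} {c d : Cmd} {R : ℕ → ℕ} {Q Q' : (ℕ → ℕ) → Prop} {T T' : ℕ} {i : ℕ}
  {g : Test}

theorem Tri.mono (h : Tri w c R Q T) (hQ : ∀ R', Q R' → Q' R') (hT : T ≤ T') :
    Tri w c R Q' T' := by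
  obtain ⟨R', t, h1, h2, h3⟩ := h
  exact ⟨R', t, h1, h2.trans hT, hQ _ h3⟩

theorem tri_seq {T1 T2 : ℕ} (h : Tri w c R (fun R' => Tri w d R' Q T2) T1) :
    Tri w (.seq c d) R Q (T1 + T2) := by
  obtain ⟨R', t, h1, h2, R'', t', h3, h4, h5⟩ := h
  exact ⟨R'', t + t', Ev.seq _ _ _ _ _ _ _ h1 h3, Nat.add_le_add h2 h4, h5⟩

theorem tri_skip (h : Q R) : Tri w .skip R Q 0 := ⟨R, 0, Ev.skip R, le_rfl, h⟩

theorem tri_inc (h : Q (Function.update R i (R i + 1))) : Tri w (.inc i) R Q 1 :=
  ⟨_, 1, Ev.inc i R, le_rfl, h⟩

theorem tri_dec (h : Q (Function.update R i (R i - 1))) : Tri w (.dec i) R Q 1 :=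
  ⟨_, 1, Ev.dec i R, le_rfl, h⟩

theorem tri_ite (h1 : g (decide (R i = 0)) w[R i]? = true → Tri w c R Q T)
    (h2 : g (decide (R i = 0)) w[R i]? = false → Tri w d R Q T) :
    Tri w (.ite i g c d) R Q (T + 2) := by
  cases hg : g (decide (R i = 0)) w[R i]? with
  | true =>
    obtain ⟨R', t, h3, h4, h5⟩ := h1 hg
    exact ⟨R', t + 1, Ev.ite_true _ _ _ _ _ _ _ hg h3, by omega, h5⟩
  | false =>
    obtain ⟨R', t, h3, h4, h5⟩ := h2 hg
    exact ⟨R', t + 2, Ev.ite_false _ _ _ _ _ _ _ hg h3, by omega, h5⟩

theorem tri_whl (Inv : ℕ → (ℕ → ℕ) → Prop) (n : ℕ)
    (hg : ∀ j < n, ∀ R, Inv j R → g (decide (R i = 0)) w[R i]? = true)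
    (hn : ∀ R, Inv n R → g (decide (R i = 0)) w[R i]? = false)
    (hb : ∀ j < n, ∀ R, Inv j R → Tri w c R (Inv (j + 1)) T) (h0 : Inv 0 R) :
    Tri w (.whl i g c) R (Inv n) (n * (T + 2) + 1) := by
  have key : ∀ m j, j + m = n → ∀ R, Inv j R → Tri w (.whl i g c) R (Inv n) (m * (T + 2) + 1) := by
    intro m
    induction m with
    | zero =>
      intro j hj R hR
      have hjn : j = n := by omega
      subst hjn
      exact ⟨R, 1, Ev.whl_false _ _ _ _ (hn R hR), by omega, hR⟩
    | succ m ih =>
      intro j hj R hR
      obtain ⟨R', t, h1, h2, h3⟩ := hb j (by omega) R hR
      obtain ⟨R'', t', h4, h5, h6⟩ := ih (j + 1) (by omega) R' h3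
      refine ⟨R'', t + t' + 2, Ev.whl_true _ _ _ _ _ _ _ _ (hg j (by omega) R hR) h1 h4, ?_, h6⟩
      have : (m + 1) * (T + 2) = m * (T + 2) + (T + 2) := by ring
      omega
  exact key n 0 (by omega) R h0

end

/-! ### Tests and macros -/

def nz : Test := fun z _ => !z
def isZ : Test := fun z _ => z
def isOne : Test := fun _ s => match s with
  | some .one => true
  | _ => false
def notSep : Test := fun _ s => match s with
  | some .sep => false
  | _ => true

theorem isOne_iff (z : Bool) (s : Option Sym) : isOne z s = true ↔ s = some .one := by
  cases s with
  | none => simp [isOne]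
  | some x => cases x <;> simp [isOne]

theorem notSep_iff (z : Bool) (s : Option Sym) : notSep z s = false ↔ s = some .sep := by
  cases s with
  | none => simp [notSep]
  | some x => cases x <;> simp [notSep]

/-- `R i := 0` -/
def clr (i : ℕ) : Cmd := .whl i nz (.dec i)

/-- `R dst := R dst + R src`, with the auxiliary register `t`. -/
def add (src dst t : ℕ) : Cmd :=
  .seq (.whl src nz (.seq (.dec src) (.seq (.inc dst) (.inc t))))
    (.whl t nz (.seq (.dec t) (.inc src)))

/-- For `R s` from `0` to `n - 1` do `c`, where `n` is the number of leading ones of the input. -/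
def forN (s : ℕ) (c : Cmd) : Cmd := .seq (clr s) (.whl s isOne (.seq c (.inc s)))

/-- `R a' := R a * n + R x` -/
def mulAdd (a x a' : ℕ) : Cmd := .seq (clr a') (.seq (forN 0 (add a a' 6)) (add x a' 6))

section

variable {w : List Sym} {R : ℕ → ℕ} {Q : (ℕ → ℕ) → Prop} {M : ℕ}

theorem tri_clr {i : ℕ} (hM : R i ≤ M) (h : Q (Function.update R i 0)) :
    Tri w (clr i) R Q (3 * M + 1) := by
  have := tri_whl (w := w) (c := .dec i) (R := R) (i := i) (g := nz) (T := 1)
    (fun j R' => R' = Function.update R i (R i - j)) (R i) (by
      intro j hj R' hR'
      rw [hR']
      simp [nz]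
      omega) (by
      intro R' hR'
      rw [hR']
      simp [nz]) (by
      intro j hj R' hR'
      refine tri_dec ?_
      rw [hR', Function.update_self, Function.update_idem]
      rw [show R i - j - 1 = R i - (j + 1) by omega]) (by simp)
  refine this.mono (fun R' hR' => ?_) ?_
  · rw [hR', Nat.sub_self]
    exact h
  · omega

theorem tri_add {src dst t : ℕ} (h1 : src ≠ dst) (h2 : src ≠ t) (h3 : dst ≠ t) (ht : R t = 0)
    (hM : R src ≤ M) (h : Q (Function.update R dst (R dst + R src))) :
    Tri w (add src dst t) R Q (9 * M + 2) := by
  have e1 := tri_whl (w := w) (c := .seq (.dec src) (.seq (.inc dst) (.inc t))) (R := R)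
    (i := src) (g := nz) (T := 3)
    (fun j R' => R' = Function.update (Function.update (Function.update R src (R src - j)) dst
      (R dst + j)) t j) (R src) (by
      intro j hj R' hR'
      rw [hR']
      simp [nz, Function.update_of_ne h1, Function.update_of_ne h2]
      omega) (by
      intro R' hR'
      rw [hR']
      simp [nz, Function.update_of_ne h1, Function.update_of_ne h2]) (by
      intro j hj R' hR'
      refine tri_seq (T1 := 1) (T2 := 2) (tri_dec ?_)
      refine tri_seq (T1 := 1) (T2 := 1) (tri_inc ?_)
      refine tri_inc ?_
      rw [hR']
      funext x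
      by_cases hx1 : x = src
      · subst hx1
        simp [Function.update_of_ne h1, Function.update_of_ne h2]
        omega
      · by_cases hx2 : x = dst
        · subst hx2
          simp [Function.update_of_ne h3, Function.update_of_ne h1.symm,
            Function.update_of_ne hx1]
          omega
        · by_cases hx3 : x = t
          · subst hx3
            simp [Function.update_of_ne h3.symm, Function.update_of_ne h2.symm]
          · simp [Function.update_of_ne hx1, Function.update_of_ne hx2, Function.update_of_ne hx3])
      (by
      funext x
      by_cases hx1 : x = src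
      · subst hx1
        simp [Function.update_of_ne h1, Function.update_of_ne h2]
      · by_cases hx2 : x = dst
        · subst hx2
          simp [Function.update_of_ne h3]
        · by_cases hx3 : x = t
          · subst hx3
            simp [ht]
          · simp [Function.update_of_ne hx1, Function.update_of_ne hx2, Function.update_of_ne hx3])
  have e2 : ∀ R', R' = Function.update (Function.update (Function.update R src (R src - R src)) dst
      (R dst + R src)) t (R src) → Tri w (.whl t nz (.seq (.dec t) (.inc src))) R' Q
      (R src * (2 + 2) + 1) := by
    intro R1 hR1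
    have := tri_whl (w := w) (c := .seq (.dec t) (.inc src)) (R := R1)
      (i := t) (g := nz) (T := 2)
      (fun j R' => R' = Function.update (Function.update (Function.update R src j) dst
        (R dst + R src)) t (R src - j)) (R src) (by
        intro j hj R' hR'
        rw [hR']
        simp [nz]
        omega) (by
        intro R' hR'
        rw [hR']
        simp [nz]) (by
        intro j hj R' hR'
        refine tri_seq (T1 := 1) (T2 := 1) (tri_dec ?_)
        refine tri_inc ?_
        rw [hR']
        funext x
        by_cases hx1 : x = src
        · subst hx1
          simp [Function.update_of_ne h1, Function.update_of_ne h2]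
        · by_cases hx2 : x = dst
          · subst hx2
            simp [Function.update_of_ne h3, Function.update_of_ne hx1]
          · by_cases hx3 : x = t
            · subst hx3
              simp [Function.update_of_ne h2.symm]
              omega
            · simp [Function.update_of_ne hx1, Function.update_of_ne hx2,
                Function.update_of_ne hx3])
        (by rw [hR1]; simp)
    refine this.mono (fun R' hR' => ?_) le_rfl
    have e3 : R' = Function.update R dst (R dst + R src) := by
      rw [hR']
      funext x
      by_cases hx1 : x = src
      · subst hx1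
        simp [Function.update_of_ne h1, Function.update_of_ne h2]
      · by_cases hx2 : x = dst
        · subst hx2
          simp [Function.update_of_ne h3]
        · by_cases hx3 : x = t
          · subst hx3
            simp [Function.update_of_ne h3.symm, ht]
          · simp [Function.update_of_ne hx1, Function.update_of_ne hx2, Function.update_of_ne hx3]
    rw [e3]
    exact h
  refine (tri_seq (e1.mono e2 le_rfl)).mono (fun _ h => h) ?_
  omega

/-- The loop rule. -/
theorem tri_for {n s T : ℕ} {c : Cmd} (hone : ∀ i < n, w[i]? = some .one)
    (hn : w[n]? ≠ some .one) (hM : R s ≤ M) (Inv : ℕ → (ℕ → ℕ) → Prop)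
    (hs : ∀ j R, Inv j R → R s = j)
    (hb : ∀ j < n, ∀ R, Inv j R →
      Tri w c R (fun R' => R' s = j ∧ Inv (j + 1) (Function.update R' s (j + 1))) T)
    (h0 : Inv 0 (Function.update R s 0)) :
    Tri w (forN s c) R (Inv n) (3 * M + 1 + (n * (T + 3) + 1)) := by
  refine tri_seq (tri_clr hM ?_)
  refine (tri_whl (T := T + 1) Inv n ?_ ?_ ?_ h0).mono (fun _ h => h) (by
    rw [show T + 1 + 2 = T + 3 by ring])
  · intro j hj R hR
    rw [hs j R hR]
    exact (isOne_iff _ _).2 (hone j hj)
  · intro R hR
    rw [hs n R hR]
    cases h : isOne (decide (n = 0)) w[n]? with
    | false => rfl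
    | true => exact absurd ((isOne_iff _ _).1 h) hn
  · intro j hj R hR
    refine tri_seq ((hb j hj R hR).mono (fun R' hR' => ?_) le_rfl)
    refine tri_inc ?_
    rw [hR'.1]
    exact hR'.2

theorem tri_mulAdd {n a x a' : ℕ} (hone : ∀ i < n, w[i]? = some .one)
    (hn : w[n]? ≠ some .one) (hR : ∀ i, R i ≤ M) (hnM : n ≤ M) (h6 : R 6 = 0)
    (d1 : a ≠ a') (d2 : x ≠ a') (d3 : a ≠ 0) (d4 : x ≠ 0) (d5 : a' ≠ 0) (d6 : a ≠ 6) (d7 : x ≠ 6)
    (d8 : a' ≠ 6) (h : Q (Function.update (Function.update R 0 n) a' (R a * n + R x))) :
    Tri w (mulAdd a x a') R Q (20 * (M + 1) ^ 2) := by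
  have e0 : Tri w (mulAdd a x a') R Q (3 * M + 1 + ((3 * M + 1 + (n * (9 * M + 2 + 3) + 1)) +
      (9 * M + 2))) := by
    refine tri_seq (tri_clr (hR a') ?_)
    refine tri_seq ?_
    refine (tri_for (T := 9 * M + 2) (M := M) hone hn ?_
      (fun j R' => R' = Function.update (Function.update R 0 j) a' (R a * j)) ?_ ?_ ?_).mono
      (fun R' hR' => ?_) le_rfl
    · rw [Function.update_of_ne d5.symm]
      exact hR 0
    · intro j R' hR'
      rw [hR', Function.update_of_ne d5.symm, Function.update_self]
    · intro j hj R' hR'
      refine tri_add d1 d6 d8 ?_ ?_ ?_
      · rw [hR', Function.update_of_ne d8.symm, Function.update_of_ne (by norm_num)]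
        exact h6
      · rw [hR', Function.update_of_ne d1, Function.update_of_ne d3]
        exact hR a
      · have e1 : R' a = R a := by
          rw [hR', Function.update_of_ne d1, Function.update_of_ne d3]
        have e2 : R' a' = R a * j := by rw [hR', Function.update_self]
        rw [e1, e2]
        refine ⟨?_, ?_⟩
        · rw [Function.update_of_ne d5.symm, hR', Function.update_of_ne d5.symm,
            Function.update_self]
        · rw [hR']
          funext y
          by_cases hy : y = 0
          · subst hy
            simp [Function.update_of_ne d5.symm]
          · by_cases hy2 : y = a'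
            · subst hy2
              simp [Function.update_of_ne hy]
              ring
            · simp [Function.update_of_ne hy, Function.update_of_ne hy2]
    · funext y
      by_cases hy : y = 0
      · subst hy
        simp [Function.update_of_ne d5.symm]
      · by_cases hy2 : y = a'
        · subst hy2
          simp [Function.update_of_ne hy]
        · simp [Function.update_of_ne hy, Function.update_of_ne hy2]
    · have e1 : R' x = R x := by
        rw [hR', Function.update_of_ne d2, Function.update_of_ne d4]
      have e2 : R' a' = R a * n := by rw [hR', Function.update_self]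
      refine tri_add d2 d7 d8 ?_ (by rw [e1]; exact hR x) ?_
      · rw [hR', Function.update_of_ne d8.symm, Function.update_of_ne (by norm_num)]
        exact h6
      · rw [e1, e2, hR', Function.update_idem]
        exact h
  refine e0.mono (fun _ h => h) ?_
  nlinarith

end

/-- The number of ones among the cells `p, ..., p + m - 1`. -/
def ones (w : List Sym) (p : ℕ) : ℕ → ℕ
  | 0 => 0
  | m + 1 => ones w p m + (isOne false w[p + m]?).toNat

theorem ones_le (w : List Sym) (p m : ℕ) : ones w p m ≤ m := by
  induction m with
  | zero => exact le_rfl
  | succ m ih =>
    have h := Bool.toNat_le (isOne false w[p + m]?)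
    simp only [ones]
    omega

section

variable {w : List Sym} {R : ℕ → ℕ} {Q : (ℕ → ℕ) → Prop} {M n : ℕ}

/-- Counting the ones in a block. -/
def cnt (p z : ℕ) : Cmd := forN 0 (.seq (.ite p isOne (.inc z) .skip) (.inc p))

theorem tri_cnt {p z : ℕ} (hone : ∀ i < n, w[i]? = some .one)
    (hn : w[n]? ≠ some .one) (hR : ∀ i, R i ≤ M) (d1 : p ≠ z) (d2 : p ≠ 0) (d3 : z ≠ 0)
    (h : Q (Function.update (Function.update (Function.update R 0 n) z
      (R z + ones w (R p) n)) p (R p + n))) :
    Tri w (cnt p z) R Q (3 * M + 1 + (n * 7 + 1)) := by
  refine (tri_for (T := 4) (M := M) hone hn (hR 0)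
    (fun j R' => R' = Function.update (Function.update (Function.update R 0 j) z
      (R z + ones w (R p) j)) p (R p + j)) ?_ ?_ ?_).mono (fun R' hR' => ?_) le_rfl
  · intro j R' hR'
    rw [hR', Function.update_of_ne d2.symm, Function.update_of_ne d3.symm, Function.update_self]
  · intro j hj R' hR'
    have ep : R' p = R p + j := by rw [hR', Function.update_self]
    have ez : R' z = R z + ones w (R p) j := by
      rw [hR', Function.update_of_ne d1.symm, Function.update_self]
    have e0 : R' 0 = j := by
      rw [hR', Function.update_of_ne d2.symm, Function.update_of_ne d3.symm,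
        Function.update_self]
    refine tri_seq (T1 := 3) (T2 := 1) (tri_ite (T := 1) (fun hg => ?_) (fun hg => ?_))
    · refine tri_inc (tri_inc ⟨?_, ?_⟩)
      · rw [Function.update_of_ne d2.symm, Function.update_of_ne d3.symm, e0]
      · have hg' : isOne false w[R p + j]? = true := by rw [ep] at hg; exact hg
        rw [ez, Function.update_of_ne d1, ep, hR']
        funext y
        by_cases hy : y = 0
        · subst hy
          simp [Function.update_of_ne d2.symm, Function.update_of_ne d3.symm]
        · by_cases hy2 : y = z
          · subst hy2
            simp [Function.update_of_ne hy, Function.update_of_ne d1.symm, ones, hg']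
            omega
          · by_cases hy3 : y = p
            · subst hy3
              simp [Function.update_of_ne hy]
              omega
            · simp [Function.update_of_ne hy, Function.update_of_ne hy2, Function.update_of_ne hy3]
    · refine (tri_skip (tri_inc ⟨?_, ?_⟩)).mono (fun _ h => h) (Nat.zero_le 1)
      · rw [Function.update_of_ne d2.symm, e0]
      · have hg' : isOne false w[R p + j]? = false := by rw [ep] at hg; exact hg
        rw [ep, hR']
        funext y
        by_cases hy : y = 0
        · subst hy
          simp [Function.update_of_ne d2.symm, Function.update_of_ne d3.symm]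
        · by_cases hy2 : y = z
          · subst hy2
            simp [Function.update_of_ne hy, Function.update_of_ne d1.symm, ones, hg']
          · by_cases hy3 : y = p
            · subst hy3
              simp [Function.update_of_ne hy]
              omega
            · simp [Function.update_of_ne hy, Function.update_of_ne hy2, Function.update_of_ne hy3]
  · funext y
    by_cases hy : y = 0
    · subst hy
      simp [Function.update_of_ne d2.symm, Function.update_of_ne d3.symm]
    · by_cases hy2 : y = z
      · subst hy2
        simp [Function.update_of_ne hy, Function.update_of_ne d1.symm, ones]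
      · by_cases hy3 : y = p
        · subst hy3
          simp [Function.update_of_ne hy]
        · simp [Function.update_of_ne hy, Function.update_of_ne hy2, Function.update_of_ne hy3]
  · rw [hR']
    exact h

/-- Comparing the number of ones in a block with `R u`. -/
def cmp (q u f : ℕ) : Cmd :=
  forN 0 (.seq (.ite q isOne (.ite u isZ (.inc f) (.dec u)) .skip) (.inc q))

theorem tri_cmp {q u f : ℕ} (hone : ∀ i < n, w[i]? = some .one)
    (hn : w[n]? ≠ some .one) (hR : ∀ i, R i ≤ M) (d1 : q ≠ u) (d2 : q ≠ f) (d3 : u ≠ f)
    (d4 : q ≠ 0) (d5 : u ≠ 0) (d6 : f ≠ 0)
    (h : Q (Function.update (Function.update (Function.update (Function.update R 0 n) u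
      (R u - ones w (R q) n)) f (R f + (ones w (R q) n - R u))) q (R q + n))) :
    Tri w (cmp q u f) R Q (3 * M + 1 + (n * 9 + 1)) := by
  refine (tri_for (T := 6) (M := M) hone hn (hR 0)
    (fun j R' => R' = Function.update (Function.update (Function.update (Function.update R 0 j) u
      (R u - ones w (R q) j)) f (R f + (ones w (R q) j - R u))) q (R q + j)) ?_ ?_ ?_).mono
    (fun R' hR' => ?_) le_rfl
  · intro j R' hR'
    rw [hR', Function.update_of_ne d4.symm, Function.update_of_ne d6.symm,
      Function.update_of_ne d5.symm, Function.update_self]
  · intro j hj R' hR'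
    have eq' : R' q = R q + j := by rw [hR', Function.update_self]
    have ef : R' f = R f + (ones w (R q) j - R u) := by
      rw [hR', Function.update_of_ne d2.symm, Function.update_self]
    have eu : R' u = R u - ones w (R q) j := by
      rw [hR', Function.update_of_ne d1.symm, Function.update_of_ne d3, Function.update_self]
    have e0 : R' 0 = j := by
      rw [hR', Function.update_of_ne d4.symm, Function.update_of_ne d6.symm,
        Function.update_of_ne d5.symm, Function.update_self]
    refine tri_seq (T1 := 5) (T2 := 1) (tri_ite (T := 3) (fun hg => ?_) (fun hg => ?_))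
    · have hg' : isOne false w[R q + j]? = true := by rw [eq'] at hg; exact hg
      refine tri_ite (T := 1) (fun hz => ?_) (fun hz => ?_)
      · have hz' : R u - ones w (R q) j = 0 := by
          rw [eu] at hz
          simpa [isZ] using hz
        refine tri_inc (tri_inc ⟨?_, ?_⟩)
        · rw [Function.update_of_ne d4.symm, Function.update_of_ne d6.symm, e0]
        · rw [ef, Function.update_of_ne d2, eq', hR']
          funext y
          by_cases hy : y = 0
          · subst hy
            simp [Function.update_of_ne d4.symm, Function.update_of_ne d5.symm,
              Function.update_of_ne d6.symm]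
          · by_cases hy2 : y = u
            · subst hy2
              simp [Function.update_of_ne hy, Function.update_of_ne d1.symm,
                Function.update_of_ne d3, ones, hg']
              omega
            · by_cases hy3 : y = f
              · subst hy3
                simp [Function.update_of_ne hy, Function.update_of_ne d2.symm, ones, hg']
                omega
              · by_cases hy4 : y = q
                · subst hy4
                  simp [Function.update_of_ne hy]
                  omega
                · simp [Function.update_of_ne hy, Function.update_of_ne hy2,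
                    Function.update_of_ne hy3, Function.update_of_ne hy4]
      · have hz' : R u - ones w (R q) j ≠ 0 := by
          rw [eu] at hz
          simpa [isZ] using hz
        refine tri_dec (tri_inc ⟨?_, ?_⟩)
        · rw [Function.update_of_ne d4.symm, Function.update_of_ne d5.symm, e0]
        · rw [eu, Function.update_of_ne d1, eq', hR']
          funext y
          by_cases hy : y = 0
          · subst hy
            simp [Function.update_of_ne d4.symm, Function.update_of_ne d5.symm,
              Function.update_of_ne d6.symm]
          · by_cases hy2 : y = u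
            · subst hy2
              simp [Function.update_of_ne hy, Function.update_of_ne d1.symm,
                Function.update_of_ne d3, ones, hg']
              omega
            · by_cases hy3 : y = f
              · subst hy3
                simp [Function.update_of_ne hy, Function.update_of_ne d2.symm,
                  Function.update_of_ne d3.symm, ones, hg']
                omega
              · by_cases hy4 : y = q
                · subst hy4
                  simp [Function.update_of_ne hy]
                  omega
                · simp [Function.update_of_ne hy, Function.update_of_ne hy2,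
                    Function.update_of_ne hy3, Function.update_of_ne hy4]
    · refine (tri_skip (tri_inc ⟨?_, ?_⟩)).mono (fun _ h => h) (Nat.zero_le 3)
      · rw [Function.update_of_ne d4.symm, e0]
      · have hg' : isOne false w[R q + j]? = false := by rw [eq'] at hg; exact hg
        rw [eq', hR']
        funext y
        by_cases hy : y = 0
        · subst hy
          simp [Function.update_of_ne d4.symm, Function.update_of_ne d5.symm,
            Function.update_of_ne d6.symm]
        · by_cases hy2 : y = u
          · subst hy2
            simp [Function.update_of_ne hy, Function.update_of_ne d1.symm,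
              Function.update_of_ne d3, ones, hg']
          · by_cases hy3 : y = f
            · subst hy3
              simp [Function.update_of_ne hy, Function.update_of_ne d2.symm, ones, hg']
            · by_cases hy4 : y = q
              · subst hy4
                simp [Function.update_of_ne hy]
                omega
              · simp [Function.update_of_ne hy, Function.update_of_ne hy2,
                  Function.update_of_ne hy3, Function.update_of_ne hy4]
  · funext y
    by_cases hy : y = 0
    · subst hy
      simp [Function.update_of_ne d4.symm, Function.update_of_ne d5.symm,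
        Function.update_of_ne d6.symm]
    · by_cases hy2 : y = u
      · subst hy2
        simp [Function.update_of_ne hy, Function.update_of_ne d1.symm,
          Function.update_of_ne d3, ones]
      · by_cases hy3 : y = f
        · subst hy3
          simp [Function.update_of_ne hy, Function.update_of_ne d2.symm, ones]
        · by_cases hy4 : y = q
          · subst hy4
            simp [Function.update_of_ne hy]
          · simp [Function.update_of_ne hy, Function.update_of_ne hy2,
              Function.update_of_ne hy3, Function.update_of_ne hy4]
  · rw [hR']
    exact h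

end

end Pool.Agent.H82.TC
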