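import Pool.Agent.H82.TC.Look

set_option autoImplicit false

namespace Pool.Agent.H82.TC

open Filter

/-- `L` has an isomorphism test which works in polynomial time. -/
def PolyTest (L : FOClass) : Prop :=
  ∃ β : TM, IsTest turing L β ∧ ∃ C : ℕ, ∀ᶠ n in atTop, maxSteps turing L β n ≤ C * n ^ C

theorem conclusion_of_bounded {J K : FOClass} (hJ : ∀ᶠ n in atTop, J.types n ≤ 1) :
    Conclusion turing J K := by
  obtain ⟨β, hβ, T, hT⟩ := bounded_test hJ
  refine ⟨Polynomial.C (T : ℝ), fun α _ => ⟨β, hβ, Eventually.of_forall fun n => ?_⟩⟩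
  rw [Polynomial.eval_C]
  exact_mod_cast hT n

theorem conclusion_of_poly {J K : FOClass} (hJ : PolyTest J)
    (hK : ∃ᶠ n in atTop, 2 ≤ K.types n) (hJK : ∀ᶠ n in atTop, J.types n ≠ 0 → K.types n ≠ 0) :
    Conclusion turing J K := by
  obtain ⟨β, hβ, C, hC⟩ := hJ
  refine ⟨Polynomial.C (C : ℝ) * Polynomial.X ^ C, fun α hα => ⟨β, hβ, ?_⟩⟩
  filter_upwards [hC, hJK] with n h1 h2
  rw [Polynomial.eval_mul, Polynomial.eval_C, Polynomial.eval_pow, Polynomial.eval_X]
  by_cases h3 : J.types n = 0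
  · rw [maxSteps_eq_zero h3]
    push_cast
    positivity
  · have h4 := lower hα hK (h2 h3)
    have h5 : maxSteps turing J β n ≤ C * maxSteps turing K α n ^ C :=
      h1.trans (Nat.mul_le_mul_left C (Nat.pow_le_pow_left h4 C))
    exact_mod_cast h5

/-- If `J` has two isomorphism types for infinitely many sizes, then the conclusion of Q1 fails for
`J` and every `K` with an isomorphism test which uses a bounded number of steps on the members
whose size is in a set `S` which meets the sizes of `J` infinitely often. -/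
theorem not_conclusion_of {J K : FOClass} (hJ : ∃ᶠ n in atTop, 2 ≤ J.types n) {α : TM}
    (hα : IsTest turing K α) {T : ℕ}
    (hS : ∃ᶠ n in atTop, J.types n ≠ 0 ∧ maxSteps turing K α n ≤ T) :
    ¬ Conclusion turing J K := by
  rintro ⟨p, hp⟩
  obtain ⟨β, hβ, hev⟩ := hp α hα
  obtain ⟨B, hB⟩ : ∃ B : ℕ, ∀ m ≤ T, p.eval (m : ℝ) ≤ B := by
    have hfin : Set.Finite ((fun m : ℕ => p.eval (m : ℝ)) '' Set.Iic T) :=
      (Set.finite_Iic T).image _
    obtain ⟨C, hC⟩ := hfin.bddAbove
    obtain ⟨B, hB⟩ := exists_nat_ge C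
    exact ⟨B, fun m hm => (hC ⟨m, hm, rfl⟩).trans hB⟩
  obtain ⟨n, ⟨h1, h2⟩, h3, h4⟩ :=
    (hS.and_eventually (hev.and (eventually_ge_atTop (B + 1)))).exists
  have h5 := lower hβ hJ h1
  have h6 := hB _ h2
  have h7 : ((B + 1 : ℕ) : ℝ) ≤ maxSteps turing J β n := by exact_mod_cast h4.trans h5
  push_cast at h7
  linarith

theorem frequently_iff {L : FOClass} :
    (∃ᶠ n in atTop, 2 ≤ L.types n) ↔ ¬ ∀ᶠ n in atTop, L.types n ≤ 1 := by
  rw [not_eventually]
  exact frequently_congr (Eventually.of_forall fun n => by omega)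

/-- The pairs `J`, `K`, with `J` testable in polynomial time, for which the conclusion of Q1
holds. -/
theorem conclusion_iff {J K : FOClass} (hJ : PolyTest J)
    (hJK : ∀ᶠ n in atTop, J.types n ≠ 0 → K.types n ≠ 0) :
    Conclusion turing J K ↔
      (∀ᶠ n in atTop, J.types n ≤ 1) ∨ ∃ᶠ n in atTop, 2 ≤ K.types n := by
  constructor
  · intro h
    by_contra hcon
    obtain ⟨h1, h2⟩ := not_or.1 hcon
    have hJ2 : ∃ᶠ n in atTop, 2 ≤ J.types n := frequently_iff.2 h1
    have hK2 : ∀ᶠ n in atTop, K.types n ≤ 1 := by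
      by_contra h3
      exact h2 (frequently_iff.2 h3)
    obtain ⟨α, hα, T, hT⟩ := bounded_test hK2
    refine not_conclusion_of hJ2 hα (T := T) ?_ h
    exact hJ2.mono fun n hn => ⟨by omega, hT n⟩
  · rintro (h | h)
    · exact conclusion_of_bounded h
    · exact conclusion_of_poly hJ h hJK

/-- The same without the hypothesis on the sizes of the members. -/
theorem conclusion_iff' {J K : FOClass} (hJ : PolyTest J) (hK : ∃ α : TM, IsTest turing K α) :
    Conclusion turing J K ↔
      (∀ᶠ n in atTop, J.types n ≤ 1) ∨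
        ((∃ᶠ n in atTop, 2 ≤ K.types n) ∧ ∀ᶠ n in atTop, J.types n ≠ 0 → K.types n ≠ 0) := by
  by_cases hJK : ∀ᶠ n in atTop, J.types n ≠ 0 → K.types n ≠ 0
  · rw [conclusion_iff hJ hJK]
    simp only [hJK, and_true]
  · simp only [hJK, and_false, or_false]
    refine ⟨fun h => ?_, conclusion_of_bounded⟩
    by_contra h1
    have hJ2 : ∃ᶠ n in atTop, 2 ≤ J.types n := frequently_iff.2 h1
    obtain ⟨α, hα⟩ := hK
    refine not_conclusion_of hJ2 hα (T := 0) ?_ h
    rw [not_eventually] at hJK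
    refine hJK.mono fun n hn => ?_
    push Not at hn
    exact ⟨hn.1, (maxSteps_eq_zero hn.2).le⟩

end Pool.Agent.H82.TC
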