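import Pool.Agent.H82.TC.Main
import Pool.Agent.H82.RA.Rank

set_option autoImplicit false

namespace Pool.Agent.H82.TC

open Pool.Agent.H82.RA (Lin rk rk_iso rk_fin_lt)

/-! ### Classes with exponentially many types: an order and an `r`-ary relation -/

/-- The signature with `<` and an `r`-ary relation symbol. -/
def sigR (r : ℕ) : Sig := ⟨[2, r], []⟩

def lLt (r : ℕ) : (sigR r).lang.Relations 2 := ⟨(0 : Fin 2), rfl⟩
def lR (r : ℕ) : (sigR r).lang.Relations r := ⟨(1 : Fin 2), rfl⟩

open FirstOrder FirstOrder.Language in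
/-- The class of all structures `(A, <, R)`, where `<` is a linear order and `R` is an `r`-ary
relation. -/
def Rl (r : ℕ) : FOClass where
  sig := sigR r
  ax :=
    (∀' ∼((lLt r).boundedFormula₂ (&0) (&0))) ⊓
    ((∀' ∀' ∀' ((lLt r).boundedFormula₂ (&0) (&1) ⟹ ((lLt r).boundedFormula₂ (&1) (&2) ⟹
      (lLt r).boundedFormula₂ (&0) (&2)))) ⊓
    (∀' ∀' ((lLt r).boundedFormula₂ (&0) (&1) ⊔
      ((&0 =' &1) ⊔ (lLt r).boundedFormula₂ (&1) (&0)))))

section

variable {r n : ℕ} (A : Str (sigR r) n)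

def rlt (x y : Fin n) : Prop := A.RelMap (lLt r) ![x, y]
def rr (x : Fin r → Fin n) : Prop := A.RelMap (lR r) x

end

theorem mem_Rl {r n : ℕ} (A : Str (sigR r) n) : (Rl r).Mem A ↔ Lin (rlt A) := by
  have h : (Rl r).Mem A ↔ (∀ x, ¬ rlt A x x) ∧ (∀ x y z, rlt A x y → rlt A y z → rlt A x z) ∧
      (∀ x y, rlt A x y ∨ x = y ∨ rlt A y x) := by
    simp only [FOClass.Mem, Rl]
    simp only [rlt]
    simp [FirstOrder.Language.Sentence.Realize, FirstOrder.Language.Formula.Realize,
      FirstOrder.Language.BoundedFormula.realize_all, Fin.snoc,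
      FirstOrder.Language.BoundedFormula.realize_rel₂]
  rw [h]
  exact ⟨fun ⟨h1, h2, h3⟩ => ⟨h1, h2, h3⟩, fun ⟨h1, h2, h3⟩ => ⟨h1, h2, h3⟩⟩

theorem rl_fn {r : ℕ} (k : ℕ) (f : (sigR r).lang.Functions k) : False := by
  obtain ⟨⟨i, hi⟩, h⟩ := f
  exact absurd hi (Nat.not_lt_zero i)

theorem rl_rel {r : ℕ} (k : ℕ) (f : (sigR r).lang.Relations k) :
    (k = 2 ∧ HEq f (lLt r)) ∨ (k = r ∧ HEq f (lR r)) := by
  obtain ⟨⟨i, hi⟩, h⟩ := f
  have hi' : i < 2 := hi
  interval_cases i
  · have hk : k = 2 := h.symm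
    subst hk
    exact Or.inl ⟨rfl, HEq.rfl⟩
  · have hk : k = r := h.symm
    subst hk
    exact Or.inr ⟨rfl, HEq.rfl⟩

theorem isoR_iff {r n : ℕ} (A B : Str (sigR r) n) :
    Iso A B ↔ ∃ e : Fin n ≃ Fin n, (∀ x y, rlt B (e x) (e y) ↔ rlt A x y) ∧
      (∀ x : Fin r → Fin n, rr B (fun i => e (x i)) ↔ rr A x) := by
  constructor
  · rintro ⟨e⟩
    refine ⟨@FirstOrder.Language.Equiv.toEquiv _ _ _ A B e, fun x y => ?_, fun x => ?_⟩
    · have := @FirstOrder.Language.Equiv.map_rel' _ _ _ A B e _ (lLt r) ![x, y]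
      unfold rlt
      rw [← this]
      apply iff_of_eq
      congr 1
      ext i
      fin_cases i <;> rfl
    · exact @FirstOrder.Language.Equiv.map_rel' _ _ _ A B e _ (lR r) x
  · rintro ⟨e, h1, h2⟩
    refine ⟨@FirstOrder.Language.Equiv.mk _ _ _ A B e ?_ ?_⟩
    · intro k f x
      exact (rl_fn k f).elim
    · intro k f x
      rcases rl_rel k f with ⟨rfl, hr⟩ | ⟨rfl, hr⟩
      · have hr' : f = lLt r := eq_of_heq hr
        subst hr'
        have hx1 : x = ![x 0, x 1] := by
          ext i; fin_cases i <;> rfl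
        have hx2 : (e.toFun ∘ x) = ![e (x 0), e (x 1)] := by
          ext i; fin_cases i <;> rfl
        rw [hx2, hx1]
        exact h1 (x 0) (x 1)
      · have hr' : f = lR k := eq_of_heq hr
        subst hr'
        exact h2 x

/-- Isomorphism in `Rl r`: the relations agree on tuples of elements with the same positions. -/
theorem isoR_iff_rk {r n : ℕ} {A B : Str (sigR r) n} (hA : (Rl r).Mem A) (hB : (Rl r).Mem B) :
    Iso A B ↔ ∀ p p' : Fin r → Fin n, (∀ i, rk (rlt A) (p i) = rk (rlt B) (p' i)) →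
      (rr A p ↔ rr B p') := by
  have lA := (mem_Rl A).1 hA
  have lB := (mem_Rl B).1 hB
  rw [isoR_iff]
  constructor
  · rintro ⟨e, h1, h2⟩ p p' hp
    have h3 : p' = fun i => e (p i) := by
      funext i
      refine lB.rk_inj ?_
      rw [rk_iso (rlt A) (rlt B) e h1, hp]
    rw [h3]
    exact (h2 p).symm
  · intro h
    obtain ⟨e, he⟩ := lA.exists_iso lB
    refine ⟨e, ?_, ?_⟩
    · intro x y
      rw [← lA.rk_lt_iff, ← lB.rk_lt_iff, he, he]
    · intro x
      exact (h x _ fun i => (he (x i)).symm).symm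

/-! ### Standard members -/

/-- The standard member with the relation `V`. -/
@[reducible] def stdR (r : ℕ) {n : ℕ} (V : (Fin r → Fin n) → Prop) :
    Str (sigR r) n where
  funMap := fun {k} f _ => (rl_fn k f).elim
  RelMap := fun {k} f x =>
    (f.1.val = 0 ∧ ∃ h : 2 = k, x (Fin.cast h 0) < x (Fin.cast h 1)) ∨
    (f.1.val = 1 ∧ ∃ h : r = k, V fun i => x (Fin.cast h i))

section

variable {r n : ℕ} (V : (Fin r → Fin n) → Prop)

theorem stdR_lt (x y : Fin n) : rlt (stdR r V) x y ↔ x < y := by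
  unfold rlt stdR
  simp [lLt]

theorem stdR_r (x : Fin r → Fin n) : rr (stdR r V) x ↔ V x := by
  unfold rr stdR
  simp [lR]

theorem stdR_fun : rlt (stdR r V) = fun a b : Fin n => a < b := by
  funext a b
  exact propext (stdR_lt V a b)

theorem stdR_mem : (Rl r).Mem (stdR r V) := by
  rw [mem_Rl, stdR_fun]
  exact ⟨fun x => lt_irrefl x, fun x y z => lt_trans, fun x y => lt_trichotomy x y⟩

end

theorem Rl_types_ge (r n : ℕ) : 2 ^ (n ^ r) ≤ (Rl r).types n := by
  classical
  unfold FOClass.types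
  have hfs : Finite (Str (Rl r).sig n) := finite_str (Rl r).sig n
  have hfin : Finite (Quotient ((Rl r).isoSetoid n)) := inferInstance
  let F : Set (Fin r → Fin n) → Quotient ((Rl r).isoSetoid n) := fun V =>
    Quotient.mk _ ⟨stdR r (fun p => p ∈ V), stdR_mem _⟩
  have hF : Function.Injective F := by
    intro V W h
    have h1 : Iso (stdR r (fun p => p ∈ V)) (stdR r (fun p => p ∈ W)) := Quotient.exact h
    have h2 := (isoR_iff_rk (stdR_mem _) (stdR_mem _)).1 h1
    ext p
    have h3 := h2 p p (by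
      intro i
      rw [stdR_fun, stdR_fun])
    rwa [stdR_r, stdR_r] at h3
  have h1 := Nat.card_le_card_of_injective F hF
  have h2 : Nat.card (Set (Fin r → Fin n)) = 2 ^ (n ^ r) := by
    rw [Nat.card_eq_fintype_card, Fintype.card_set, Fintype.card_fun, Fintype.card_fin,
      Fintype.card_fin]
  rw [h2] at h1
  exact h1

/-! ### An upper bound for the number of types -/

/-- The maximal arity, a function of arity `a` counting as `a + 1`. -/
def Sig.ar (s : Sig) : ℕ := (s.rel.sum + (s.fn.map (· + 1)).sum) + 1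

/-- The number of symbols. -/
def Sig.num (s : Sig) : ℕ := s.rel.length + s.fn.length

theorem card_str_le (s : Sig) {n : ℕ} (hn : 1 ≤ n) :
    Nat.card (Str s n) ≤ (2 ^ (n ^ s.ar)) ^ s.num := by
  classical
  let F : Str s n →
      ((i : Fin s.fn.length) → (Fin (s.fn.get i) → Fin n) → Fin n) ×
      ((i : Fin s.rel.length) → (Fin (s.rel.get i) → Fin n) → Prop) := fun A =>
    (fun i x => A.funMap (⟨i, rfl⟩ : s.lang.Functions (s.fn.get i)) x,
     fun i x => A.RelMap (⟨i, rfl⟩ : s.lang.Relations (s.rel.get i)) x)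
  have hF : Function.Injective F := by
    intro A B h
    have h1 := congrArg Prod.fst h
    have h2 := congrArg Prod.snd h
    ext k f x
    · obtain ⟨i, rfl⟩ := f
      have := congrFun (congrFun h1 i) x
      exact congrArg Fin.val this
    · obtain ⟨i, rfl⟩ := f
      have := congrFun (congrFun h2 i) x
      exact iff_of_eq this
  refine (Nat.card_le_card_of_injective F hF).trans ?_
  rw [Nat.card_prod, Nat.card_pi, Nat.card_pi]
  have hnn : n ≤ 2 ^ n := Nat.lt_two_pow_self.le
  have h1 : ∀ i : Fin s.fn.length, Nat.card ((Fin (s.fn.get i) → Fin n) → Fin n) ≤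
      2 ^ (n ^ s.ar) := by
    intro i
    rw [Nat.card_eq_fintype_card, Fintype.card_fun, Fintype.card_fun, Fintype.card_fin,
      Fintype.card_fin]
    calc n ^ (n ^ s.fn.get i) ≤ (2 ^ n) ^ (n ^ s.fn.get i) := Nat.pow_le_pow_left hnn _
      _ = 2 ^ (n ^ (s.fn.get i + 1)) := by rw [← pow_mul, pow_succ, mul_comm]
      _ ≤ 2 ^ (n ^ s.ar) := by
        refine Nat.pow_le_pow_right (by norm_num) (Nat.pow_le_pow_right hn ?_)
        have : s.fn.get i + 1 ≤ (s.fn.map (· + 1)).sum :=
          List.single_le_sum (by simp) _ (List.mem_map_of_mem (List.get_mem _ _))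
        unfold Sig.ar
        omega
  have h2 : ∀ i : Fin s.rel.length, Nat.card ((Fin (s.rel.get i) → Fin n) → Prop) ≤
      2 ^ (n ^ s.ar) := by
    intro i
    have h3 : Nat.card ((Fin (s.rel.get i) → Fin n) → Prop) = 2 ^ (n ^ s.rel.get i) := by
      rw [show Nat.card ((Fin (s.rel.get i) → Fin n) → Prop) =
        Nat.card (Set (Fin (s.rel.get i) → Fin n)) from rfl, Nat.card_eq_fintype_card,
        Fintype.card_set, Fintype.card_fun, Fintype.card_fin, Fintype.card_fin]
    rw [h3]
    refine Nat.pow_le_pow_right (by norm_num) (Nat.pow_le_pow_right hn ?_)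
    have : s.rel.get i ≤ s.rel.sum := List.single_le_sum (by simp) _ (List.get_mem _ _)
    unfold Sig.ar
    omega
  calc (∏ i : Fin s.fn.length, Nat.card ((Fin (s.fn.get i) → Fin n) → Fin n)) *
        ∏ i : Fin s.rel.length, Nat.card ((Fin (s.rel.get i) → Fin n) → Prop)
      ≤ (2 ^ (n ^ s.ar)) ^ s.fn.length * (2 ^ (n ^ s.ar)) ^ s.rel.length := by
        refine Nat.mul_le_mul ?_ ?_
        · refine (Finset.prod_le_prod' fun i _ => h1 i).trans ?_
          simp
        · refine (Finset.prod_le_prod' fun i _ => h2 i).trans ?_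
          simp
    _ = (2 ^ (n ^ s.ar)) ^ s.num := by
        rw [← pow_add]
        unfold Sig.num
        congr 1
        omega

theorem types_le_card (L : FOClass) (n : ℕ) : L.types n ≤ Nat.card (Str L.sig n) := by
  have := finite_str L.sig n
  have h1 : L.types n ≤ Nat.card {A : Str L.sig n // L.Mem A} := by
    unfold FOClass.types
    exact Nat.card_le_card_of_surjective _ Quotient.mk_surjective
  exact h1.trans (Nat.card_le_card_of_injective _ Subtype.val_injective)

/-- The number of types of any class is at most a polynomial of the number of types of `Rl r`,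
for some `r ≥ s`. -/
theorem types_le_Rl (L : FOClass) (s : ℕ) : ∃ (r : ℕ) (q : Polynomial ℕ), s ≤ r ∧
    ∀ n, L.types n ≤ q.eval ((Rl r).types n) := by
  refine ⟨L.sig.ar + s, Polynomial.X ^ L.sig.num + Polynomial.C (L.types 0), by omega,
    fun n => ?_⟩
  rw [Polynomial.eval_add, Polynomial.eval_pow, Polynomial.eval_X, Polynomial.eval_C]
  rcases Nat.eq_zero_or_pos n with h | h
  · subst h
    omega
  · have h0 : 2 ^ (n ^ L.sig.ar) ≤ 2 ^ (n ^ (L.sig.ar + s)) :=
      Nat.pow_le_pow_right (by norm_num) (Nat.pow_le_pow_right h (by omega))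
    have h1 := (types_le_card L n).trans (card_str_le L.sig h)
    have h2 := Nat.pow_le_pow_left (h0.trans (Rl_types_ge (L.sig.ar + s) n)) L.sig.num
    omega

end Pool.Agent.H82.TC
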