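import Pool.Agent.H82.TC.Gen
import Pool.Agent.H82.TC.Rl

set_option autoImplicit false

namespace Pool.Agent.H82.TC

open Filter
open Pool.Agent.H82.RA (Lin rk rk_iso rk_fin_lt)

/-! ### Words made of blocks -/

/-- The blocks, each followed by a separator. -/
def blk : List (List Sym) → List Sym
  | [] => []
  | b :: bs => b ++ Sym.sep :: blk bs

/-- The position of the block number `k`. -/
def bpos : List (List Sym) → ℕ → ℕ
  | _, 0 => 0
  | [], _ + 1 => 0
  | b :: bs, k + 1 => b.length + 1 + bpos bs k

theorem blk_get (bs : List (List Sym)) : ∀ (k : ℕ) (b : List Sym), bs[k]? = some b →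
    (∀ i < b.length, (blk bs)[bpos bs k + i]? = b[i]?) ∧
    (blk bs)[bpos bs k + b.length]? = some .sep ∧
    bpos bs (k + 1) = bpos bs k + b.length + 1 := by
  induction bs with
  | nil => intro k b h; simp at h
  | cons c bs ih =>
    intro k b h
    cases k with
    | zero =>
      simp only [List.getElem?_cons_zero, Option.some.injEq] at h
      subst h
      refine ⟨fun i hi => ?_, ?_, ?_⟩
      · simp only [blk, bpos, Nat.zero_add]
        rw [List.getElem?_append_left hi]
      · simp only [blk, bpos, Nat.zero_add]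
        rw [List.getElem?_append_right le_rfl, Nat.sub_self]
        rfl
      · cases bs <;> simp [bpos]
    | succ k =>
      rw [List.getElem?_cons_succ] at h
      obtain ⟨h1, h2, h3⟩ := ih k b h
      refine ⟨fun i hi => ?_, ?_, ?_⟩
      · simp only [blk, bpos]
        rw [List.getElem?_append_right (by omega),
          show c.length + 1 + bpos bs k + i - c.length = bpos bs k + i + 1 by omega,
          List.getElem?_cons_succ]
        exact h1 i hi
      · simp only [blk, bpos]
        rw [List.getElem?_append_right (by omega),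
          show c.length + 1 + bpos bs k + b.length - c.length = bpos bs k + b.length + 1 by omega,
          List.getElem?_cons_succ]
        exact h2
      · rw [show bpos (c :: bs) (k + 1 + 1) = c.length + 1 + bpos bs (k + 1) from rfl,
          show bpos (c :: bs) (k + 1) = c.length + 1 + bpos bs k from rfl, h3]
        omega

/-- Move the head `h` over `k` separators. -/
def skipS (h : ℕ) : ℕ → Cmd
  | 0 => .skip
  | k + 1 => .seq (skipS h k) (.seq (.whl h notSep (.inc h)) (.inc h))

theorem tri_skipS {bs : List (List Sym)} (hns : ∀ b ∈ bs, Sym.sep ∉ b) {h : ℕ} :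
    ∀ (k : ℕ), k ≤ bs.length → ∀ {R : ℕ → ℕ} {Q : (ℕ → ℕ) → Prop}, R h = 0 →
    Q (Function.update R h (bpos bs k)) → Tri (blk bs) (skipS h k) R Q (4 * bpos bs k) := by
  intro k
  induction k with
  | zero =>
    intro _ R Q h0 hQ
    refine (tri_skip (Q := Q) ?_).mono (fun _ h => h) (Nat.zero_le _)
    have : Function.update R h (bpos bs 0) = R := by
      rw [show bpos bs 0 = 0 by cases bs <;> rfl, ← h0]
      simp
    rwa [this] at hQ
  | succ k ih =>
    intro hk R Q h0 hQ
    have hb : bs[k]? = some bs[k] := List.getElem?_eq_getElem (by omega)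
    obtain ⟨b, hbe⟩ : ∃ b, b = bs[k] := ⟨_, rfl⟩
    rw [← hbe] at hb
    have hmem : b ∈ bs := by rw [hbe]; exact List.getElem_mem _
    obtain ⟨h1, h2, h3⟩ := blk_get bs k b hb
    have e0 : Tri (blk bs) (skipS h (k + 1)) R Q (4 * bpos bs k + (b.length * (1 + 2) + 1 + 1)) := by
      refine tri_seq (ih (by omega) h0 ?_)
      refine tri_seq ?_
      refine (tri_whl (T := 1) (fun j R' => R' = Function.update R h (bpos bs k + j)) b.length
        ?_ ?_ ?_ ?_).mono (fun R' hR' => ?_) le_rfl
      · intro j hj R' hR'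
        rw [hR', Function.update_self]
        cases hn : notSep (decide (bpos bs k + j = 0)) (blk bs)[bpos bs k + j]? with
        | true => rfl
        | false =>
          have h4 := (notSep_iff _ _).1 hn
          rw [h1 j hj, List.getElem?_eq_getElem hj] at h4
          simp only [Option.some.injEq] at h4
          exact absurd (h4 ▸ List.getElem_mem hj) (hns b hmem)
      · intro R' hR'
        rw [hR', Function.update_self]
        exact (notSep_iff _ _).2 h2
      · intro j hj R' hR'
        refine tri_inc ?_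
        rw [hR', Function.update_self, Function.update_idem, add_assoc]
      · rw [Nat.add_zero]
      · refine tri_inc ?_
        rw [hR', Function.update_self, Function.update_idem]
        rwa [← h3]
    refine e0.mono (fun _ h => h) ?_
    rw [h3]
    omega

/-! ### The input words -/

section

variable {r n : ℕ} (A B : Str (sigR r) n)

open Classical in
noncomputable def tabL : List Sym := List.ofFn (fun k : Fin (n ^ 2) =>
  if A.RelMap (lLt r) (finFunctionFinEquiv.symm k) then Sym.one else Sym.zero)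

open Classical in
noncomputable def tabR : List Sym := List.ofFn (fun k : Fin (n ^ r) =>
  if A.RelMap (lR r) (finFunctionFinEquiv.symm k) then Sym.one else Sym.zero)

theorem code_R : code A = List.replicate n Sym.one ++ Sym.sep ::
    (tabL A ++ Sym.sep :: (tabR A ++ [Sym.sep])) := by
  have h1 : List.ofFn (relTable A) = [relTable A (0 : Fin 2), relTable A (1 : Fin 2)] := by
    refine (List.ofFn_succ (n := 1)).trans ?_
    congr 1
  have h2 : List.ofFn (fnTable A) = [] := List.ofFn_zero
  have e0 : relTable A (0 : Fin 2) = tabL A ++ [Sym.sep] := rfl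
  have e1 : relTable A (1 : Fin 2) = tabR A ++ [Sym.sep] := rfl
  unfold code
  rw [h1, h2, e0, e1]
  simp

/-- The blocks of the input word. -/
noncomputable def bks : List (List Sym) :=
  [List.replicate n Sym.one, tabL A, tabR A, List.replicate n Sym.one, tabL B, tabR B]

theorem pairCode_R : pairCode A B = blk (bks A B) := by
  unfold pairCode
  rw [code_R, code_R]
  simp [blk, bks]

theorem bks_sep : ∀ b ∈ bks A B, Sym.sep ∉ b := by
  classical
  have hr : Sym.sep ∉ List.replicate n Sym.one := by
    intro h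
    exact absurd (List.eq_of_mem_replicate h) (by simp)
  have hl : ∀ A : Str (sigR r) n, Sym.sep ∉ tabL A := by
    intro A h
    unfold tabL at h
    obtain ⟨k, hk⟩ := (List.mem_ofFn' _ _).1 h
    simp only at hk
    split_ifs at hk
  have ht : ∀ A : Str (sigR r) n, Sym.sep ∉ tabR A := by
    intro A h
    unfold tabR at h
    obtain ⟨k, hk⟩ := (List.mem_ofFn' _ _).1 h
    simp only at hk
    split_ifs at hk
  intro b hb
  simp only [bks, List.mem_cons, List.not_mem_nil, or_false] at hb
  rcases hb with rfl | rfl | rfl | rfl | rfl | rfl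
  · exact hr
  · exact hl A
  · exact ht A
  · exact hr
  · exact hl B
  · exact ht B

theorem length_tabL : (tabL A).length = n * n := by
  unfold tabL
  rw [List.length_ofFn]
  exact sq n

theorem length_tabR : (tabR A).length = n ^ r := by
  unfold tabR
  rw [List.length_ofFn]

theorem bpos_bks : bpos (bks A B) 1 = n + 1 ∧ bpos (bks A B) 2 = n + n * n + 2 ∧
    bpos (bks A B) 4 = 2 * n + n * n + n ^ r + 4 ∧
    bpos (bks A B) 5 = 2 * n + 2 * (n * n) + n ^ r + 5 := by
  refine ⟨?_, ?_, ?_, ?_⟩ <;> simp [bpos, bks, length_tabL, length_tabR] <;> omega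

theorem length_pairCode_R : (pairCode A B).length = 2 * n + 2 * (n * n) + 2 * n ^ r + 6 := by
  rw [pairCode_R]
  simp [blk, bks, length_tabL, length_tabR]
  omega

theorem tabL_get (x y : Fin n) : (tabL A)[n * y.val + x.val]? = some .one ↔ rlt A x y := by
  classical
  have hlt : n * y.val + x.val < n ^ 2 := by
    rw [sq]
    calc n * y.val + x.val < n * y.val + n := by omega
      _ = n * (y.val + 1) := by ring
      _ ≤ n * n := Nat.mul_le_mul_left n y.isLt
  unfold tabL
  rw [List.getElem?_ofFn, dif_pos hlt]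
  have e : (finFunctionFinEquiv.symm ⟨n * y.val + x.val, hlt⟩ : Fin 2 → Fin n) = ![x, y] := by
    rw [Equiv.symm_apply_eq]
    refine Fin.ext ?_
    rw [finFunctionFinEquiv_apply]
    simp [Fin.sum_univ_two]
    ring
  simp only [e]
  unfold rlt
  by_cases h : A.RelMap (lLt r) ![x, y]
  · simp [h]
  · simp [h]

theorem tabR_get (p : Fin r → Fin n) :
    (tabR A)[∑ i, (p i).val * n ^ i.val]? = some .one ↔ rr A p := by
  classical
  have hv : (finFunctionFinEquiv p).val = ∑ i, (p i).val * n ^ i.val :=
    finFunctionFinEquiv_apply p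
  have hlt : ∑ i, (p i).val * n ^ i.val < n ^ r := by
    rw [← hv]
    exact (finFunctionFinEquiv p).isLt
  unfold tabR
  rw [List.getElem?_ofFn, dif_pos hlt]
  have e : (finFunctionFinEquiv.symm ⟨∑ i, (p i).val * n ^ i.val, hlt⟩ : Fin r → Fin n) = p := by
    rw [Equiv.symm_apply_eq]
    exact Fin.ext hv.symm
  simp only [e]
  unfold rr
  by_cases h : A.RelMap (lR r) p
  · simp [h]
  · simp [h]

end

/-! ### Counting -/

theorem ones_eq_sum (w : List Sym) (p m : ℕ) :
    ones w p m = ∑ s ∈ Finset.range m, (isOne false w[p + s]?).toNat := by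
  induction m with
  | zero => rfl
  | succ m ih => rw [Finset.sum_range_succ, ← ih]; rfl

theorem ones_eq_rk {n : ℕ} {w : List Sym} {p : ℕ} {ρ : Fin n → Fin n → Prop} {x : Fin n}
    (h : ∀ z : Fin n, w[p + z.val]? = some .one ↔ ρ z x) : ones w p n = rk ρ x := by
  classical
  rw [ones_eq_sum, ← Fin.sum_univ_eq_sum_range (fun s => (isOne false w[p + s]?).toNat)]
  unfold rk
  rw [Finset.card_filter]
  refine Finset.sum_congr rfl fun z _ => ?_
  by_cases hz : ρ z x
  · rw [if_pos hz, (isOne_iff _ _).2 ((h z).2 hz)]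
    rfl
  · rw [if_neg hz]
    cases hg : isOne false w[p + z.val]? with
    | false => rfl
    | true => exact absurd ((h z).1 ((isOne_iff _ _).1 hg)) hz

theorem Mat_iff {w : List Sym} {n o1 o2 o3 o4 : ℕ} (d : ℕ) : ∀ a b,
    Mat w n o1 o2 o3 o4 d a b ↔ ∀ p p' : Fin d → Fin n,
      (∀ i, ones w (o1 + n * (p i).val) n = ones w (o3 + n * (p' i).val) n) →
      (w[o2 + (a * n ^ d + ∑ i, (p i).val * n ^ i.val)]? = some .one ↔
        w[o4 + (b * n ^ d + ∑ i, (p' i).val * n ^ i.val)]? = some .one) := by
  induction d with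
  | zero =>
    intro a b
    simp [Mat]
  | succ d ih =>
    intro a b
    constructor
    · intro h p p' hp
      have h1 := h (p (Fin.last d)).val (p (Fin.last d)).isLt (p' (Fin.last d)).val
        (p' (Fin.last d)).isLt (hp _)
      have h2 := (ih _ _).1 h1 (fun i => p i.castSucc) (fun i => p' i.castSucc)
        (fun i => hp i.castSucc)
      rw [Fin.sum_univ_castSucc, Fin.sum_univ_castSucc]
      simp only [Fin.val_castSucc, Fin.val_last]
      have e : ∀ (a x s : ℕ), a * n ^ (d + 1) + (s + x * n ^ d) = (a * n + x) * n ^ d + s := by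
        intro a x s
        rw [pow_succ]
        ring
      rw [e, e]
      exact h2
    · intro h x hx y hy hxy
      rw [ih]
      intro p p' hp
      have h1 := h (Fin.snoc (α := fun _ => Fin n) p ⟨x, hx⟩)
        (Fin.snoc (α := fun _ => Fin n) p' ⟨y, hy⟩) (by
          intro i
          refine Fin.lastCases ?_ (fun i => ?_) i
          · simpa using hxy
          · simpa using hp i)
      rw [Fin.sum_univ_castSucc, Fin.sum_univ_castSucc] at h1
      simp only [Fin.snoc_castSucc, Fin.snoc_last, Fin.val_castSucc, Fin.val_last] at h1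
      have e : ∀ (a x s : ℕ), a * n ^ (d + 1) + (s + x * n ^ d) = (a * n + x) * n ^ d + s := by
        intro a x s
        rw [pow_succ]
        ring
      rw [e, e] at h1
      exact h1

/-! ### The test -/

/-- The program which tests isomorphism in `Rl r`. -/
def mainR (r : ℕ) : Cmd := .seq (skipS 1 1) (.seq (skipS 2 2) (.seq (skipS 3 4)
  (.seq (skipS 4 5) (gen r))))

theorem mainR_spec {r n : ℕ} {A B : Str (sigR r) n} (hA : (Rl r).Mem A) (hB : (Rl r).Mem B) :
    Tri (pairCode A B) (mainR r) (fun _ => 0) (fun R' => R' 5 = 0 ↔ Iso A B)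
      (16 * (pairCode A B).length + Tg (pairCode A B).length r) := by
  obtain ⟨w, hw⟩ : ∃ w, w = pairCode A B := ⟨_, rfl⟩
  have hwb : w = blk (bks A B) := hw.trans (pairCode_R A B)
  obtain ⟨M, hM⟩ : ∃ M, M = w.length := ⟨_, rfl⟩
  have hlen := length_pairCode_R A B
  rw [← hw, ← hM] at hlen
  obtain ⟨p1, p2, p3, p4⟩ := bpos_bks A B
  have g0 := blk_get (bks A B) 0 _ rfl
  have g1 := blk_get (bks A B) 1 _ rfl
  have g2 := blk_get (bks A B) 2 _ rfl
  have g4 := blk_get (bks A B) 4 _ rfl
  have g5 := blk_get (bks A B) 5 _ rfl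
  rw [← hwb] at g0 g1 g2 g4 g5
  have hnn : n ^ r = n ^ r := rfl
  have hctx : Ctx w n (n ^ r) M (bpos (bks A B) 1) (bpos (bks A B) 2) (bpos (bks A B) 4)
      (bpos (bks A B) 5) := by
    refine ⟨?_, ?_, by omega, by omega, by omega, by omega, by omega, by omega⟩
    · intro i hi
      have := g0.1 i (by simpa using hi)
      rw [show bpos (bks A B) 0 + i = i by simp [bpos, bks]] at this
      rw [this, List.getElem?_replicate, if_pos hi]
    · have := g0.2.1
      rw [show bpos (bks A B) 0 + (List.replicate n Sym.one).length = n by simp [bpos, bks]] at this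
      rw [this]
      simp
  have hmat : Mat w n (bpos (bks A B) 1) (bpos (bks A B) 2) (bpos (bks A B) 4)
      (bpos (bks A B) 5) r 0 0 ↔ Iso A B := by
    rw [isoR_iff_rk hA hB, Mat_iff]
    have hrkA : ∀ y : Fin n, ones w (bpos (bks A B) 1 + n * y.val) n = rk (rlt A) y := by
      intro y
      refine ones_eq_rk fun z => ?_
      rw [← tabL_get A z y, add_assoc]
      have hlt : n * y.val + z.val < (tabL A).length := by
        rw [length_tabL]
        calc n * y.val + z.val < n * y.val + n := by omega
          _ = n * (y.val + 1) := by ring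
          _ ≤ n * n := Nat.mul_le_mul_left n y.isLt
      rw [g1.1 _ hlt]
    have hrkB : ∀ y : Fin n, ones w (bpos (bks A B) 4 + n * y.val) n = rk (rlt B) y := by
      intro y
      refine ones_eq_rk fun z => ?_
      rw [← tabL_get B z y, add_assoc]
      have hlt : n * y.val + z.val < (tabL B).length := by
        rw [length_tabL]
        calc n * y.val + z.val < n * y.val + n := by omega
          _ = n * (y.val + 1) := by ring
          _ ≤ n * n := Nat.mul_le_mul_left n y.isLt
      rw [g4.1 _ hlt]
    have hsum : ∀ p : Fin r → Fin n, ∑ i, (p i).val * n ^ i.val < n ^ r := by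
      intro p
      rw [← finFunctionFinEquiv_apply p]
      exact (finFunctionFinEquiv p).isLt
    refine forall_congr' fun p => forall_congr' fun p' => ?_
    simp only [hrkA, hrkB]
    refine imp_congr Iff.rfl ?_
    rw [Nat.zero_mul, Nat.zero_add, Nat.zero_add, g2.1 _ (by rw [length_tabR]; exact hsum p),
      g5.1 _ (by rw [length_tabR]; exact hsum p'), tabR_get, tabR_get]
  rw [← hw, ← hM]
  have hb6 : (bks A B).length = 6 := rfl
  have key : Tri (blk (bks A B)) (mainR r) (fun _ => 0) (fun R' => R' 5 = 0 ↔ Iso A B)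
      (4 * bpos (bks A B) 1 + (4 * bpos (bks A B) 2 + (4 * bpos (bks A B) 4 +
        (4 * bpos (bks A B) 5 + Tg M r)))) := by
    refine tri_seq (tri_skipS (bks_sep A B) 1 (by omega) rfl ?_)
    refine tri_seq (tri_skipS (bks_sep A B) 2 (by omega) (by simp) ?_)
    refine tri_seq (tri_skipS (bks_sep A B) 4 (by omega) (by simp) ?_)
    refine tri_seq (tri_skipS (bks_sep A B) 5 (by omega) (by simp) ?_)
    rw [← hwb]
    obtain ⟨R, hR⟩ : ∃ R : ℕ → ℕ, R = Function.update (Function.update (Function.update
      (Function.update (fun _ => 0) 1 (bpos (bks A B) 1)) 2 (bpos (bks A B) 2)) 3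
      (bpos (bks A B) 4)) 4 (bpos (bks A B) 5) := ⟨_, rfl⟩
    rw [← hR]
    have r1 : R 1 = bpos (bks A B) 1 := by rw [hR]; simp
    have r2 : R 2 = bpos (bks A B) 2 := by rw [hR]; simp
    have r3 : R 3 = bpos (bks A B) 4 := by rw [hR]; simp
    have r4 : R 4 = bpos (bks A B) 5 := by rw [hR]; simp
    have rk0 : ∀ i, i ≠ 1 → i ≠ 2 → i ≠ 3 → i ≠ 4 → R i = 0 := by
      intro i i1 i2 i3 i4
      rw [hR, Function.update_of_ne i4, Function.update_of_ne i3, Function.update_of_ne i2,
        Function.update_of_ne i1]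
    have hO : Off M (bpos (bks A B) 1) (bpos (bks A B) 2) (bpos (bks A B) 4)
        (bpos (bks A B) 5) R := by
      refine ⟨fun i => ?_, r1, r2, r3, r4, rk0 6 (by omega) (by omega) (by omega) (by omega)⟩
      by_cases i1 : i = 1
      · rw [i1, r1]; omega
      · by_cases i2 : i = 2
        · rw [i2, r2]; omega
        · by_cases i3 : i = 3
          · rw [i3, r3]; omega
          · by_cases i4 : i = 4
            · rw [i4, r4]; omega
            · rw [rk0 i i1 i2 i3 i4]
              exact Nat.zero_le _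
    have e11 : R (11 + 7 * r) = 0 := rk0 _ (by omega) (by omega) (by omega) (by omega)
    have e12 : R (12 + 7 * r) = 0 := rk0 _ (by omega) (by omega) (by omega) (by omega)
    refine (gen_spec hctx r R hO (by rw [e11]; simp) (by rw [e12]; simp)).mono
      (fun R' hR' => ?_) le_rfl
    obtain ⟨_, _, h5⟩ := hR'
    rw [h5, e11, e12, hmat, rk0 5 (by omega) (by omega) (by omega) (by omega)]
    simp
  rw [← hwb] at key
  refine key.mono (fun _ h => h) ?_
  omega

theorem Tg_le (M d : ℕ) : Tg M d ≤ (100 + 300 * d) * (M + 1) ^ (2 * d + 2) := by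
  induction d with
  | zero => simp [Tg]
  | succ d ih =>
    have h1 : (M + 1) ^ 2 ≤ (M + 1) ^ (2 * d + 2) := Nat.pow_le_pow_right (by omega) (by omega)
    calc Tg M (d + 1) = (M + 1) ^ 2 * (Tg M d + 300 * (M + 1) ^ 2) := rfl
      _ ≤ (M + 1) ^ 2 * ((100 + 300 * d) * (M + 1) ^ (2 * d + 2) + 300 * (M + 1) ^ (2 * d + 2)) :=
          Nat.mul_le_mul_left _ (Nat.add_le_add ih (Nat.mul_le_mul_left _ h1))
      _ = (100 + 300 * (d + 1)) * (M + 1) ^ (2 * (d + 1) + 2) := by ring

/-- `Rl r` has a polynomial time isomorphism test. -/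
theorem polyTest_Rl (r : ℕ) : PolyTest (Rl r) := by
  have key : ∀ (n : ℕ) (A B : Str (sigR r) n), (Rl r).Mem A → (Rl r).Mem B →
      ∃ b t, turing.Halts ((mainR r).tm 5) (pairCode A B) b t ∧ (b = true ↔ Iso A B) ∧
        t ≤ 18 * (pairCode A B).length + 4 + Tg (pairCode A B).length r := by
    intro n A B hA hB
    obtain ⟨R', t, h1, h2, h3⟩ := mainR_spec hA hB
    refine ⟨_, _, h1.halts, ?_, ?_⟩
    · rw [decide_eq_true_iff]
      exact h3
    · have : max (pairCode A B).length 1 ≤ (pairCode A B).length + 1 := by omega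
      omega
  refine ⟨(mainR r).tm 5, fun n A B hA hB => ?_, 18 * 13 + 4 + (100 + 300 * r) *
    13 ^ (2 * r + 2) + (r + 2) * (2 * r + 3), ?_⟩
  · obtain ⟨b, t, h1, h2, _⟩ := key n A B hA hB
    exact ⟨b, t, h1, h2⟩
  · filter_upwards [eventually_ge_atTop 1] with n hn
    refine csSup_le' ?_
    rintro t ⟨A, B, hA, hB, b, hb⟩
    obtain ⟨b', t', h1, _, h3⟩ := key n A B hA hB
    rw [(turing.det _ _ _ _ _ _ hb h1).2]
    refine h3.trans ?_
    have hL0 := length_pairCode_R (r := r) A B
    rw [hL0]
    obtain ⟨N, hN⟩ : ∃ N, N = n ^ (r + 2) := ⟨_, rfl⟩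
    have hN1 : 1 ≤ N := by rw [hN]; exact Nat.one_le_pow _ _ hn
    have a1 : n ≤ N := by rw [hN]; exact Nat.le_self_pow (by omega) n
    have a2 : n * n ≤ N := by
      rw [hN, ← sq]
      exact Nat.pow_le_pow_right hn (by omega)
    have a3 : n ^ r ≤ N := by
      rw [hN]
      exact Nat.pow_le_pow_right hn (by omega)
    have hlen : 2 * n + 2 * (n * n) + 2 * n ^ r + 6 + 1 ≤ 13 * N := by omega
    obtain ⟨L, hL⟩ : ∃ L, L = 2 * n + 2 * (n * n) + 2 * n ^ r + 6 := ⟨_, rfl⟩
    rw [← hL] at hlen ⊢
    obtain ⟨e, he⟩ : ∃ e, e = (r + 2) * (2 * r + 3) := ⟨_, rfl⟩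
    obtain ⟨c, hc⟩ : ∃ c, c = 18 * 13 + 4 + (100 + 300 * r) * 13 ^ (2 * r + 2) := ⟨_, rfl⟩
    rw [← he, ← hc]
    have b1 : N ≤ n ^ e := by
      rw [hN, he]
      exact Nat.pow_le_pow_right hn (Nat.le_mul_of_pos_right _ (by omega))
    have b2 : N ^ (2 * r + 2) ≤ n ^ e := by
      rw [hN, ← pow_mul, he]
      exact Nat.pow_le_pow_right hn (Nat.mul_le_mul_left _ (by omega))
    have b3 : 1 ≤ n ^ e := Nat.one_le_pow _ _ hn
    have b4 : Tg L r ≤ (100 + 300 * r) * 13 ^ (2 * r + 2) * n ^ e := by
      calc Tg L r ≤ (100 + 300 * r) * (L + 1) ^ (2 * r + 2) := Tg_le L r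
        _ ≤ (100 + 300 * r) * (13 * N) ^ (2 * r + 2) :=
            Nat.mul_le_mul_left _ (Nat.pow_le_pow_left hlen _)
        _ = (100 + 300 * r) * 13 ^ (2 * r + 2) * N ^ (2 * r + 2) := by rw [mul_pow]; ring
        _ ≤ (100 + 300 * r) * 13 ^ (2 * r + 2) * n ^ e := Nat.mul_le_mul_left _ b2
    calc 18 * L + 4 + Tg L r ≤ 18 * 13 * n ^ e + 4 * n ^ e +
          (100 + 300 * r) * 13 ^ (2 * r + 2) * n ^ e := by
          refine Nat.add_le_add (Nat.add_le_add ?_ (by omega)) b4
          have : L ≤ 13 * n ^ e := by omega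
          calc 18 * L ≤ 18 * (13 * n ^ e) := Nat.mul_le_mul_left _ this
            _ = 18 * 13 * n ^ e := by ring
      _ = c * n ^ e := by rw [hc]; ring
      _ ≤ (c + e) * n ^ (c + e) :=
          Nat.mul_le_mul (Nat.le_add_right _ _) (Nat.pow_le_pow_right hn (Nat.le_add_left _ _))

end Pool.Agent.H82.TC
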